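import Mathlib
import Pool.Agent.Helper543.EDFrame
import Pool.Agent.Helper543.EDEst

/-!
Real critical points of the affine distance to rank-one probability tensors: all formats with
two factors (matrices).

A tensor of format `(a, b)` (two factors) is an `(a+1) x (b+1)` matrix.  For a real matrix `T` with
sum of entries `1` we look at the complex critical points of the squared distance to `T` on the
variety of rank-at-most-one matrices with sum of entries `1`.
-/

open scoped BigOperators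
open Matrix

namespace Pool.Agent.Results.MP_b0e20b_ag.AllMatrices

/-- The sum of all entries. -/
def total {a b : ℕ} (T : Matrix (Fin (a + 1)) (Fin (b + 1)) ℂ) : ℂ := ∑ i, ∑ j, T i j

/-- The Frobenius bilinear form. -/
def frob {a b : ℕ} (S T : Matrix (Fin (a + 1)) (Fin (b + 1)) ℂ) : ℂ := ∑ i, ∑ j, S i j * T i j

/-- `x` is a critical point of `dist(., T)` on `S ∩ H`: it has the form `u vᵀ`, its entries sum to
`1`, and `T - x` is orthogonal to the tangent space of `S ∩ H` at `x`, which consists of the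
matrices `u' vᵀ + u v'ᵀ` (the tangent vectors of `S` at `x`) whose entries sum to `0`. -/
def IsCrit {a b : ℕ} (T x : Matrix (Fin (a + 1)) (Fin (b + 1)) ℂ) : Prop :=
  total x = 1 ∧ ∃ (u : Fin (a + 1) → ℂ) (v : Fin (b + 1) → ℂ), x = vecMulVec u v ∧
    ∀ (u' : Fin (a + 1) → ℂ) (v' : Fin (b + 1) → ℂ),
      total (vecMulVec u' v + vecMulVec u v') = 0 →
        frob (T - x) (vecMulVec u' v + vecMulVec u v') = 0

/-- The set of all complex critical points for the real matrix `T`. -/
def critSet {a b : ℕ} (T : Matrix (Fin (a + 1)) (Fin (b + 1)) ℝ) :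
    Set (Matrix (Fin (a + 1)) (Fin (b + 1)) ℂ) :=
  {x | IsCrit (T.map Complex.ofReal) x}

/-- The set of the real critical points for the real matrix `T`. -/
def realCritSet {a b : ℕ} (T : Matrix (Fin (a + 1)) (Fin (b + 1)) ℝ) :
    Set (Matrix (Fin (a + 1)) (Fin (b + 1)) ℂ) :=
  {x | x ∈ critSet T ∧ ∀ i j, (x i j).im = 0}

/-! ### Normalised form of the critical equations -/

lemma total_vecMulVec {a b : ℕ} (u : Fin (a + 1) → ℂ) (v : Fin (b + 1) → ℂ) :
    total (vecMulVec u v) = (∑ i, u i) * ∑ j, v j := by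
  simp only [total, vecMulVec_apply, Finset.sum_mul_sum]

lemma total_add {a b : ℕ} (x y : Matrix (Fin (a + 1)) (Fin (b + 1)) ℂ) :
    total (x + y) = total x + total y := by
  simp only [total, Matrix.add_apply, Finset.sum_add_distrib]

lemma frob_add {a b : ℕ} (z x y : Matrix (Fin (a + 1)) (Fin (b + 1)) ℂ) :
    frob z (x + y) = frob z x + frob z y := by
  simp only [frob, Matrix.add_apply, mul_add, Finset.sum_add_distrib]

lemma frob_smul {a b : ℕ} (z x : Matrix (Fin (a + 1)) (Fin (b + 1)) ℂ) (c : ℂ) :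
    frob z (c • x) = c * frob z x := by
  simp only [frob, Matrix.smul_apply, smul_eq_mul, Finset.mul_sum]
  refine Finset.sum_congr rfl fun i _ => Finset.sum_congr rfl fun j _ => by ring

lemma isCrit_iff {a b : ℕ} (T x : Matrix (Fin (a + 1)) (Fin (b + 1)) ℂ) :
    IsCrit T x ↔ ∃ (u : Fin (a + 1) → ℂ) (v : Fin (b + 1) → ℂ), (∑ i, u i) = 1 ∧ (∑ j, v j) = 1 ∧
      x = vecMulVec u v ∧
      (∀ u' : Fin (a + 1) → ℂ, (∑ i, u' i) = 0 → frob (T - x) (vecMulVec u' v) = 0) ∧
      (∀ v' : Fin (b + 1) → ℂ, (∑ j, v' j) = 0 → frob (T - x) (vecMulVec u v') = 0) := by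
  constructor
  · rintro ⟨h1, u, v, hx, h⟩
    have hprod : (∑ i, u i) * ∑ j, v j = 1 := by rw [← total_vecMulVec, ← hx]; exact h1
    have hu0 : (∑ i, u i) ≠ 0 := left_ne_zero_of_mul_eq_one hprod
    have hv0 : (∑ j, v j) ≠ 0 := right_ne_zero_of_mul_eq_one hprod
    set s := ∑ i, u i with hs
    set t := ∑ j, v j with ht
    refine ⟨fun i => t * u i, fun j => s * v j, ?_, ?_, ?_, ?_, ?_⟩
    · rw [← Finset.mul_sum, ← hs, mul_comm]; exact hprod
    · rw [← Finset.mul_sum, ← ht]; exact hprod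
    · rw [hx]; ext i j
      simp only [vecMulVec_apply]
      linear_combination (-(u i * v j)) * hprod
    · intro u' hu'
      have := h (fun i => s * u' i) 0 (by
        rw [total_add, total_vecMulVec, total_vecMulVec, ← Finset.mul_sum, hu']; simp)
      rw [← this]; congr 1
      ext i j; simp [vecMulVec_apply]; ring
    · intro v' hv'
      have := h 0 (fun j => t * v' j) (by
        rw [total_add, total_vecMulVec, total_vecMulVec, ← Finset.mul_sum, hv']; simp)
      rw [← this]; congr 1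
      ext i j; simp [vecMulVec_apply]; ring
  · rintro ⟨u, v, hu, hv, hx, hA, hB⟩
    refine ⟨by rw [hx, total_vecMulVec, hu, hv, one_mul], u, v, hx, ?_⟩
    intro u' v' h0
    rw [total_add, total_vecMulVec, total_vecMulVec, hu, hv, one_mul, mul_one] at h0
    set s := ∑ i, u' i with hs
    have e : vecMulVec u' v + vecMulVec u v' =
        vecMulVec (fun i => u' i - s * u i) v + vecMulVec u (fun j => v' j + s * v j) := by
      ext i j; simp [vecMulVec_apply]; ring
    rw [e, frob_add, hA _ (by rw [Finset.sum_sub_distrib, ← Finset.mul_sum, hu, ← hs]; ring),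
      hB _ (by rw [Finset.sum_add_distrib, ← Finset.mul_sum, hv]; linear_combination h0), add_zero]

lemma even_nonfixed {A : Type*} [DecidableEq A] (s : Finset A) (c : A → A)
    (hc : ∀ x ∈ s, c x ∈ s) (hcc : ∀ x, c (c x) = x) : Even (s.filter (fun x => c x ≠ x)).card := by
  have h : ∑ x ∈ s.filter (fun x => c x ≠ x), (1 : ZMod 2) = 0 := by
    refine Finset.sum_involution (fun x _ => c x) ?_ ?_ ?_ ?_
    · intro x _; decide
    · intro x hx _
      exact (Finset.mem_filter.1 hx).2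
    · intro x hx
      rw [Finset.mem_filter] at hx ⊢
      refine ⟨hc x hx.1, ?_⟩
      rw [hcc]
      exact fun h => hx.2 h.symm
    · intro x _; exact hcc x
  rw [Finset.sum_const, nsmul_eq_mul, mul_one] at h
  exact (ZMod.natCast_eq_zero_iff_even).1 h

/-- entrywise complex conjugation -/
noncomputable def cj {a b : ℕ} (x : Matrix (Fin (a + 1)) (Fin (b + 1)) ℂ) :
    Matrix (Fin (a + 1)) (Fin (b + 1)) ℂ := x.map (starRingEnd ℂ)

lemma cj_cj {a b : ℕ} (x : Matrix (Fin (a + 1)) (Fin (b + 1)) ℂ) : cj (cj x) = x := by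
  ext i j; simp [cj]

lemma total_cj {a b : ℕ} (x : Matrix (Fin (a + 1)) (Fin (b + 1)) ℂ) :
    total (cj x) = (starRingEnd ℂ) (total x) := by
  simp [total, cj, map_sum]

lemma frob_cj {a b : ℕ} (x y : Matrix (Fin (a + 1)) (Fin (b + 1)) ℂ) :
    frob (cj x) (cj y) = (starRingEnd ℂ) (frob x y) := by
  simp [frob, cj, map_sum]

lemma crit_cj {a b : ℕ} (T : Matrix (Fin (a + 1)) (Fin (b + 1)) ℝ)
    (x : Matrix (Fin (a + 1)) (Fin (b + 1)) ℂ) (hx : x ∈ critSet T) : cj x ∈ critSet T := by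
  obtain ⟨h1, u, v, hxu, h⟩ := hx
  refine ⟨by rw [total_cj, h1, map_one], fun i => (starRingEnd ℂ) (u i),
    fun j => (starRingEnd ℂ) (v j), ?_, ?_⟩
  · rw [hxu]; ext i j; simp [cj, vecMulVec_apply]
  · intro u' v' h0
    have e : vecMulVec u' (fun j => (starRingEnd ℂ) (v j)) +
        vecMulVec (fun i => (starRingEnd ℂ) (u i)) v' =
        cj (vecMulVec (fun i => (starRingEnd ℂ) (u' i)) v +
          vecMulVec u (fun j => (starRingEnd ℂ) (v' j))) := by
      ext i j; simp [cj, vecMulVec_apply]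
    have e2 : T.map Complex.ofReal - cj x = cj (T.map Complex.ofReal - x) := by
      ext i j; simp [cj]
    rw [e, total_cj] at h0
    have h3 := h _ _ ((map_eq_zero _).1 h0)
    rw [e, e2, frob_cj, h3, map_zero]

lemma real_iff {a b : ℕ} (x : Matrix (Fin (a + 1)) (Fin (b + 1)) ℂ) :
    (∀ i j, (x i j).im = 0) ↔ cj x = x := by
  constructor
  · intro h; ext i j
    simp only [cj, Matrix.map_apply]
    exact Complex.conj_eq_iff_im.2 (h i j)
  · intro h i j
    have := congrFun (congrFun h i) j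
    simp only [cj, Matrix.map_apply] at this
    exact Complex.conj_eq_iff_im.1 this

lemma parity {a b : ℕ} (T : Matrix (Fin (a + 1)) (Fin (b + 1)) ℝ) (hf : (critSet T).Finite) :
    Even ((critSet T).ncard - (realCritSet T).ncard) ∧
      (realCritSet T).ncard ≤ (critSet T).ncard := by
  classical
  have h := even_nonfixed hf.toFinset cj
    (fun x hx => by rw [Set.Finite.mem_toFinset] at hx ⊢; exact crit_cj T x hx) cj_cj
  have hr : (realCritSet T) = ((hf.toFinset.filter (fun x => cj x = x) : Finset _) : Set _) := by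
    ext x
    simp only [realCritSet, Finset.coe_filter, Set.Finite.mem_toFinset, Set.mem_ofPred_eq,
      real_iff]
  have hcard : (hf.toFinset.filter (fun x => cj x = x)).card +
      (hf.toFinset.filter (fun x => cj x ≠ x)).card = hf.toFinset.card :=
    Finset.card_filter_add_card_filter_not _
  have e1 : (critSet T).ncard = hf.toFinset.card := Set.ncard_eq_toFinset_card _ hf
  have e2 : (realCritSet T).ncard = (hf.toFinset.filter (fun x => cj x = x)).card := by
    rw [hr, Set.ncard_coe_finset]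
  rw [e1, e2, ← hcard]
  refine ⟨?_, by omega⟩
  rw [Nat.add_sub_cancel_left]
  exact h

/-! ### Nonnegative data with three real critical points -/


/-! ### Reduction to the normal form -/

open Pool.Agent.Helper543.EDFrame Pool.Agent.Helper543.ED

lemma frob_sub_e {a b : ℕ} (M : Matrix (Fin (a + 1)) (Fin (b + 1)) ℂ) (u x : Fin (a + 1) → ℂ)
    (v : Fin (b + 1) → ℂ) : frob (M - vecMulVec u v) (vecMulVec x v) =
      (∑ t, (∑ s, M s t * x s) * v t) - (∑ s, u s * x s) * ∑ t, v t * v t := by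
  have e1 : (∑ s, u s * x s) * ∑ t, v t * v t = ∑ t, ∑ s, (u s * x s) * (v t * v t) := by
    rw [Finset.sum_mul_sum, Finset.sum_comm]
  have e2 : ∑ t, (∑ s, M s t * x s) * v t = ∑ t, ∑ s, M s t * x s * v t := by
    simp only [Finset.sum_mul]
  rw [e1, e2, ← Finset.sum_sub_distrib, frob, Finset.sum_comm]
  refine Finset.sum_congr rfl fun t _ => ?_
  rw [← Finset.sum_sub_distrib]
  refine Finset.sum_congr rfl fun s _ => ?_
  simp only [Matrix.sub_apply, vecMulVec_apply]
  ring

lemma frob_sub_f {a b : ℕ} (M : Matrix (Fin (a + 1)) (Fin (b + 1)) ℂ) (u : Fin (a + 1) → ℂ)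
    (v y : Fin (b + 1) → ℂ) : frob (M - vecMulVec u v) (vecMulVec u y) =
      (∑ s, (∑ t, M s t * y t) * u s) - (∑ s, u s * u s) * ∑ t, v t * y t := by
  have e1 : (∑ s, u s * u s) * ∑ t, v t * y t = ∑ s, ∑ t, (u s * u s) * (v t * y t) := by
    rw [Finset.sum_mul_sum]
  have e2 : ∑ s, (∑ t, M s t * y t) * u s = ∑ s, ∑ t, M s t * y t * u s := by
    simp only [Finset.sum_mul]
  rw [e1, e2, ← Finset.sum_sub_distrib, frob]
  refine Finset.sum_congr rfl fun s _ => ?_
  rw [← Finset.sum_sub_distrib]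
  refine Finset.sum_congr rfl fun t _ => ?_
  simp only [Matrix.sub_apply, vecMulVec_apply]
  ring

section reduction

variable {a b : ℕ} (hab : a ≤ b) (e : Fin a → Fin (a + 1) → ℝ) (f : Fin b → Fin (b + 1) → ℝ)
  (σ p : Fin a → ℝ)

/-- the matrix with prescribed coordinates -/
noncomputable def TT : Matrix (Fin (a + 1)) (Fin (b + 1)) ℝ := fun s t =>
  1 / (((a : ℝ) + 1) * ((b : ℝ) + 1)) + (∑ i, p i * e i s) / ((b : ℝ) + 1) +
    (∑ i, p i * f (Fin.castLE hab i) t) / ((a : ℝ) + 1) + ∑ i, σ i * e i s * f (Fin.castLE hab i) t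

variable (he0 : ∀ i, ∑ t, e i t = 0)
  (hee : ∀ i j, ∑ t, e i t * e j t = if i = j then 1 / ((a : ℝ) + 1) else 0)
  (hec : ∀ s t, ∑ i, e i s * e i t =
    (if s = t then 1 / ((a : ℝ) + 1) else 0) - 1 / ((a : ℝ) + 1) ^ 2)
  (hf0 : ∀ i, ∑ t, f i t = 0)
  (hff : ∀ i j, ∑ t, f i t * f j t = if i = j then 1 / ((b : ℝ) + 1) else 0)
  (hfc : ∀ s t, ∑ i, f i s * f i t =
    (if s = t then 1 / ((b : ℝ) + 1) else 0) - 1 / ((b : ℝ) + 1) ^ 2)

include he0 hf0 in
lemma TT_total : ∑ s, ∑ t, TT hab e f σ p s t = 1 := by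
  have ha : ((a : ℝ) + 1) ≠ 0 := Nat.cast_add_one_ne_zero a
  have hb : ((b : ℝ) + 1) ≠ 0 := Nat.cast_add_one_ne_zero b
  have h1 : ∀ s, ∑ t, TT hab e f σ p s t = 1 / ((a : ℝ) + 1) + ∑ i, p i * e i s := by
    intro s
    simp only [TT, Finset.sum_add_distrib, Finset.sum_const, Finset.card_univ, Fintype.card_fin,
      nsmul_eq_mul, ← Finset.sum_div]
    rw [Finset.sum_comm (f := fun t i => p i * f (Fin.castLE hab i) t),
      Finset.sum_comm (f := fun t i => σ i * e i s * f (Fin.castLE hab i) t)]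
    simp only [← Finset.mul_sum, hf0, mul_zero, Finset.sum_const_zero, zero_div, add_zero]
    push_cast
    field_simp
  simp only [h1, Finset.sum_add_distrib, Finset.sum_const, Finset.card_univ, Fintype.card_fin,
    nsmul_eq_mul]
  rw [Finset.sum_comm]
  simp only [← Finset.mul_sum, he0, mul_zero, Finset.sum_const_zero, add_zero]
  push_cast
  field_simp

lemma TT_c (s : Fin (a + 1)) (t : Fin (b + 1)) : ((TT hab e f σ p).map Complex.ofReal) s t =
    1 / (((a : ℂ) + 1) * ((b : ℂ) + 1)) + (∑ i, (p i : ℂ) * e i s) / ((b : ℂ) + 1) +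
    (∑ i, (p i : ℂ) * f (Fin.castLE hab i) t) / ((a : ℂ) + 1) +
      ∑ i, (σ i : ℂ) * e i s * f (Fin.castLE hab i) t := by
  simp only [Matrix.map_apply, TT]
  push_cast
  rfl

include he0 hee in
lemma TT_e (i : Fin a) (t : Fin (b + 1)) :
    ∑ s, ((TT hab e f σ p).map Complex.ofReal) s t * e i s =
      (p i : ℂ) / (((a : ℂ) + 1) * ((b : ℂ) + 1)) + σ i * f (Fin.castLE hab i) t / ((a : ℂ) + 1) := by
  have ha : ((a : ℂ) + 1) ≠ 0 := Nat.cast_add_one_ne_zero a
  have hb : ((b : ℂ) + 1) ≠ 0 := Nat.cast_add_one_ne_zero b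
  simp only [TT_c, add_mul, Finset.sum_add_distrib, ← Finset.mul_sum, he0c e he0, mul_zero,
    zero_add]
  have h1 : ∑ s, (∑ k, (p k : ℂ) * e k s) / ((b : ℂ) + 1) * e i s =
      (∑ k, (p k : ℂ) * ∑ s, (e k s : ℂ) * e i s) / ((b : ℂ) + 1) := by
    simp only [Finset.mul_sum, Finset.sum_div, Finset.sum_mul]
    rw [Finset.sum_comm]
    refine Finset.sum_congr rfl fun k _ => Finset.sum_congr rfl fun s _ => ?_
    ring
  have h2 : ∑ s, (∑ k, (σ k : ℂ) * e k s * f (Fin.castLE hab k) t) * e i s =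
      ∑ k, (σ k : ℂ) * f (Fin.castLE hab k) t * ∑ s, (e k s : ℂ) * e i s := by
    simp only [Finset.mul_sum, Finset.sum_mul]
    rw [Finset.sum_comm]
    refine Finset.sum_congr rfl fun k _ => Finset.sum_congr rfl fun s _ => ?_
    ring
  rw [h1, h2]
  simp only [heec e hee, mul_ite, mul_zero, Finset.sum_ite_eq', Finset.mem_univ, if_true]
  field_simp
  try ring

include hf0 hff in
lemma TT_f (j : Fin b) (s : Fin (a + 1)) :
    ∑ t, ((TT hab e f σ p).map Complex.ofReal) s t * f j t =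
      ∑ i, if Fin.castLE hab i = j then ((p i : ℂ) / (((a : ℂ) + 1) * ((b : ℂ) + 1)) +
        σ i * e i s / ((b : ℂ) + 1)) else 0 := by
  have ha : ((a : ℂ) + 1) ≠ 0 := Nat.cast_add_one_ne_zero a
  have hb : ((b : ℂ) + 1) ≠ 0 := Nat.cast_add_one_ne_zero b
  simp only [TT_c, add_mul, Finset.sum_add_distrib, ← Finset.mul_sum, he0c f hf0, mul_zero,
    zero_add]
  have h1 : ∑ t, (∑ k, (p k : ℂ) * f (Fin.castLE hab k) t) / ((a : ℂ) + 1) * f j t =
      ∑ k, (p k : ℂ) * (∑ t, (f (Fin.castLE hab k) t : ℂ) * f j t) / ((a : ℂ) + 1) := by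
    simp only [Finset.mul_sum, Finset.sum_div, Finset.sum_mul]
    rw [Finset.sum_comm]
    refine Finset.sum_congr rfl fun k _ => Finset.sum_congr rfl fun s _ => ?_
    ring
  have h2 : ∑ t, (∑ k, (σ k : ℂ) * e k s * f (Fin.castLE hab k) t) * f j t =
      ∑ k, (σ k : ℂ) * e k s * ∑ t, (f (Fin.castLE hab k) t : ℂ) * f j t := by
    simp only [Finset.mul_sum, Finset.sum_mul]
    rw [Finset.sum_comm]
    refine Finset.sum_congr rfl fun k _ => Finset.sum_congr rfl fun s _ => ?_
    ring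
  rw [h1, h2, ← Finset.sum_add_distrib]
  refine Finset.sum_congr rfl fun k _ => ?_
  rw [heec f hff]
  split_ifs
  · field_simp
  · simp

include he0 hee hf0 hff in
lemma frob_e (U : Fin a → ℂ) (V : Fin b → ℂ) (i : Fin a) :
    frob ((TT hab e f σ p).map Complex.ofReal - vecMulVec (uu e U) (uu f V))
      (vecMulVec (fun s => (e i s : ℂ)) (uu f V)) =
    ((p i : ℂ) + σ i * V (Fin.castLE hab i) - (1 + ∑ j, V j ^ 2) * U i) /
      (((a : ℂ) + 1) * ((b : ℂ) + 1)) := by
  have ha : ((a : ℂ) + 1) ≠ 0 := Nat.cast_add_one_ne_zero a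
  have hb : ((b : ℂ) + 1) ≠ 0 := Nat.cast_add_one_ne_zero b
  have h1 : frob ((TT hab e f σ p).map Complex.ofReal - vecMulVec (uu e U) (uu f V))
      (vecMulVec (fun s => (e i s : ℂ)) (uu f V)) =
      (∑ t, (∑ s, ((TT hab e f σ p).map Complex.ofReal) s t * e i s) * uu f V t) -
      (∑ s, uu e U s * e i s) * ∑ t, uu f V t * uu f V t := by
    exact frob_sub_e _ _ _ _
  rw [h1, uu_dot e he0 hee, uu_sq f hf0 hff]
  simp only [TT_e hab e f σ p he0 hee]
  have h2 : ∑ t, ((p i : ℂ) / (((a : ℂ) + 1) * ((b : ℂ) + 1)) +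
      σ i * f (Fin.castLE hab i) t / ((a : ℂ) + 1)) * uu f V t =
      (p i : ℂ) / (((a : ℂ) + 1) * ((b : ℂ) + 1)) * (∑ t, uu f V t) +
      (σ i : ℂ) / ((a : ℂ) + 1) * ∑ t, uu f V t * f (Fin.castLE hab i) t := by
    rw [Finset.mul_sum, Finset.mul_sum, ← Finset.sum_add_distrib]
    refine Finset.sum_congr rfl fun t _ => ?_
    ring
  rw [h2, sum_uu f hf0, uu_dot f hf0 hff]
  field_simp

include he0 hee hf0 hff in
lemma frob_f (U : Fin a → ℂ) (V : Fin b → ℂ) (j : Fin b) :
    frob ((TT hab e f σ p).map Complex.ofReal - vecMulVec (uu e U) (uu f V))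
      (vecMulVec (uu e U) (fun t => (f j t : ℂ))) =
    ((∑ i, if Fin.castLE hab i = j then ((p i : ℂ) + σ i * U i) else 0) -
      (1 + ∑ i, U i ^ 2) * V j) / (((a : ℂ) + 1) * ((b : ℂ) + 1)) := by
  have ha : ((a : ℂ) + 1) ≠ 0 := Nat.cast_add_one_ne_zero a
  have hb : ((b : ℂ) + 1) ≠ 0 := Nat.cast_add_one_ne_zero b
  have h1 : frob ((TT hab e f σ p).map Complex.ofReal - vecMulVec (uu e U) (uu f V))
      (vecMulVec (uu e U) (fun t => (f j t : ℂ))) =
      (∑ s, (∑ t, ((TT hab e f σ p).map Complex.ofReal) s t * f j t) * uu e U s) -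
      (∑ s, uu e U s * uu e U s) * ∑ t, uu f V t * f j t := by
    exact frob_sub_f _ _ _ _
  rw [h1, uu_dot f hf0 hff, uu_sq e he0 hee]
  simp only [TT_f hab e f σ p hf0 hff]
  have h2 : ∑ s, (∑ i, if Fin.castLE hab i = j then ((p i : ℂ) / (((a : ℂ) + 1) * ((b : ℂ) + 1)) +
        σ i * e i s / ((b : ℂ) + 1)) else 0) * uu e U s =
      (∑ i, if Fin.castLE hab i = j then ((p i : ℂ) + σ i * U i) else 0) /
        (((a : ℂ) + 1) * ((b : ℂ) + 1)) := by
    simp only [Finset.sum_mul]
    rw [Finset.sum_comm, Finset.sum_div]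
    refine Finset.sum_congr rfl fun i _ => ?_
    split_ifs with hij
    · have h3 : ∑ s, ((p i : ℂ) / (((a : ℂ) + 1) * ((b : ℂ) + 1)) +
          σ i * e i s / ((b : ℂ) + 1)) * uu e U s =
          (p i : ℂ) / (((a : ℂ) + 1) * ((b : ℂ) + 1)) * (∑ s, uu e U s) +
          (σ i : ℂ) / ((b : ℂ) + 1) * ∑ s, uu e U s * e i s := by
        rw [Finset.mul_sum, Finset.mul_sum, ← Finset.sum_add_distrib]
        refine Finset.sum_congr rfl fun t _ => ?_
        ring
      rw [h3, sum_uu e he0, uu_dot e he0 hee]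
      field_simp
    · simp
  rw [h2]
  field_simp

end reduction

section bij

variable {a b : ℕ} (hab : a ≤ b) (e : Fin a → Fin (a + 1) → ℝ) (f : Fin b → Fin (b + 1) → ℝ)
  (σ p : Fin a → ℝ)

/-- extension by zero -/
noncomputable def ex (W : Fin a → ℂ) : Fin b → ℂ := Function.extend (Fin.castLE hab) W 0

lemma ex_castLE (W : Fin a → ℂ) (i : Fin a) : ex hab W (Fin.castLE hab i) = W i :=
  (Fin.castLE_injective hab).extend_apply _ _ _

lemma ex_off (W : Fin a → ℂ) (j : Fin b) (hj : ¬ ∃ i, Fin.castLE hab i = j) : ex hab W j = 0 :=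
  Function.extend_apply' _ _ _ hj

lemma sum_ex (g : Fin b → ℂ) (hg : ∀ j, (¬ ∃ i, Fin.castLE hab i = j) → g j = 0) :
    ∑ j, g j = ∑ i, g (Fin.castLE hab i) := by
  classical
  rw [← Finset.sum_image (s := Finset.univ) (g := Fin.castLE hab) (f := g)
    (fun x _ y _ h => Fin.castLE_injective hab h)]
  symm
  apply Finset.sum_subset (Finset.subset_univ _)
  intro j _ hj
  apply hg
  rintro ⟨i, hi⟩
  exact hj (Finset.mem_image.2 ⟨i, Finset.mem_univ _, hi⟩)

lemma sum_ex_sq (W : Fin a → ℂ) : ∑ j, ex hab W j ^ 2 = ∑ i, W i ^ 2 := by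
  rw [sum_ex hab _ (fun j hj => by rw [ex_off hab W j hj]; simp)]
  simp only [ex_castLE]

/-- the critical point of a solution -/
noncomputable def psi (z : (Fin a → ℂ) × (Fin a → ℂ)) : Matrix (Fin (a + 1)) (Fin (b + 1)) ℂ :=
  vecMulVec (uu e z.1) (uu f (ex hab z.2))

variable (he0 : ∀ i, ∑ t, e i t = 0)
  (hee : ∀ i j, ∑ t, e i t * e j t = if i = j then 1 / ((a : ℝ) + 1) else 0)
  (hec : ∀ s t, ∑ i, e i s * e i t =
    (if s = t then 1 / ((a : ℝ) + 1) else 0) - 1 / ((a : ℝ) + 1) ^ 2)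
  (hf0 : ∀ i, ∑ t, f i t = 0)
  (hff : ∀ i j, ∑ t, f i t * f j t = if i = j then 1 / ((b : ℝ) + 1) else 0)
  (hfc : ∀ s t, ∑ i, f i s * f i t =
    (if s = t then 1 / ((b : ℝ) + 1) else 0) - 1 / ((b : ℝ) + 1) ^ 2)

include he0 hee hec hf0 hff hfc in
lemma crit_norm (U : Fin a → ℂ) (V : Fin b → ℂ) :
    ((∀ u' : Fin (a + 1) → ℂ, (∑ i, u' i) = 0 →
      frob ((TT hab e f σ p).map Complex.ofReal - vecMulVec (uu e U) (uu f V))
        (vecMulVec u' (uu f V)) = 0) ∧
     (∀ v' : Fin (b + 1) → ℂ, (∑ j, v' j) = 0 →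
      frob ((TT hab e f σ p).map Complex.ofReal - vecMulVec (uu e U) (uu f V))
        (vecMulVec (uu e U) v') = 0)) ↔
    ((∀ i, (p i : ℂ) + σ i * V (Fin.castLE hab i) = (1 + ∑ j, V j ^ 2) * U i) ∧
     (∀ j, (∑ i, if Fin.castLE hab i = j then ((p i : ℂ) + σ i * U i) else 0) =
      (1 + ∑ i, U i ^ 2) * V j)) := by
  have ha : ((a : ℂ) + 1) ≠ 0 := Nat.cast_add_one_ne_zero a
  have hb : ((b : ℂ) + 1) ≠ 0 := Nat.cast_add_one_ne_zero b
  have hc : (((a : ℂ) + 1) * ((b : ℂ) + 1)) ≠ 0 := mul_ne_zero ha hb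
  rw [test_iff e he0 hec (fun u' =>
      frob ((TT hab e f σ p).map Complex.ofReal - vecMulVec (uu e U) (uu f V))
        (vecMulVec u' (uu f V)))
      (fun x y => by rw [← frob_add, Matrix.add_vecMulVec])
      (fun c x => by rw [← frob_smul, Matrix.smul_vecMulVec]),
    test_iff f hf0 hfc (fun v' =>
      frob ((TT hab e f σ p).map Complex.ofReal - vecMulVec (uu e U) (uu f V))
        (vecMulVec (uu e U) v'))
      (fun x y => by rw [← frob_add, Matrix.vecMulVec_add])
      (fun c x => by rw [← frob_smul, Matrix.vecMulVec_smul])]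
  simp only [frob_e hab e f σ p he0 hee hf0 hff, frob_f hab e f σ p he0 hee hf0 hff,
    div_eq_zero_iff, hc, or_false, sub_eq_zero]

include he0 hee hec hf0 hff hfc in
lemma crit_image (hσ : ∀ i, 0 < σ i) :
    critSet (TT hab e f σ p) = psi hab e f '' Sol σ p := by
  ext x
  constructor
  · intro hx
    obtain ⟨u, v, hu, hv, hxe, hA, hB⟩ := (isCrit_iff _ _).1 hx
    obtain ⟨U, rfl⟩ := exists_uu e hec u hu
    obtain ⟨V, rfl⟩ := exists_uu f hfc v hv
    rw [hxe] at hA hB
    obtain ⟨h1, h2⟩ := (crit_norm hab e f σ p he0 hee hec hf0 hff hfc U V).1 ⟨hA, hB⟩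
    have hon : ∀ i, (p i : ℂ) + σ i * U i = (1 + ∑ i, U i ^ 2) * V (Fin.castLE hab i) := by
      intro i
      rw [← h2 (Fin.castLE hab i), Finset.sum_eq_single i]
      · simp
      · intro k _ hk
        rw [if_neg]
        intro h
        exact hk (Fin.castLE_injective hab h)
      · intro h; exact absurd (Finset.mem_univ _) h
    have hB0 : (1 + ∑ i, U i ^ 2) ≠ 0 := by
      intro h0
      have hU : ∀ i, U i = ((-(p i / σ i) : ℝ) : ℂ) := by
        intro i
        have h3 := hon i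
        rw [h0, zero_mul] at h3
        have h4 : (σ i : ℂ) ≠ 0 := by exact_mod_cast (hσ i).ne'
        push_cast
        field_simp
        linear_combination h3
      have h5 : (1 + ∑ i, U i ^ 2) = ((1 + ∑ i, (-(p i / σ i)) ^ 2 : ℝ) : ℂ) := by
        simp only [hU]; push_cast; rfl
      rw [h5] at h0
      have h6 : (1 + ∑ i, (-(p i / σ i)) ^ 2 : ℝ) = 0 := by exact_mod_cast h0
      have h7 : 0 ≤ ∑ i, (-(p i / σ i)) ^ 2 := Finset.sum_nonneg fun i _ => sq_nonneg _
      linarith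
    have hoff : ∀ j, (¬ ∃ i, Fin.castLE hab i = j) → V j = 0 := by
      intro j hj
      have h3 := h2 j
      rw [Finset.sum_eq_zero] at h3
      · exact (mul_eq_zero.1 h3.symm).resolve_left hB0
      · intro i _
        rw [if_neg]
        intro h
        exact hj ⟨i, h⟩
    have hV : V = ex hab (fun i => V (Fin.castLE hab i)) := by
      ext j
      by_cases hj : ∃ i, Fin.castLE hab i = j
      · obtain ⟨i, rfl⟩ := hj
        rw [ex_castLE]
      · rw [ex_off hab _ j hj, hoff j hj]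
    refine ⟨(U, fun i => V (Fin.castLE hab i)), ⟨?_, ?_⟩, ?_⟩
    · intro i
      have h3 := h1 i
      rw [hV, sum_ex_sq, ex_castLE] at h3
      exact h3
    · intro i
      exact hon i
    · rw [hxe, psi, ← hV]
  · rintro ⟨⟨U, W⟩, ⟨h1, h2⟩, rfl⟩
    simp only at h1 h2
    show IsCrit _ _
    rw [isCrit_iff]
    refine ⟨uu e U, uu f (ex hab W), sum_uu e he0 U, sum_uu f hf0 _, rfl, ?_⟩
    have := (crit_norm hab e f σ p he0 hee hec hf0 hff hfc U (ex hab W)).2 ⟨?_, ?_⟩
    · exact this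
    · intro i
      rw [sum_ex_sq, ex_castLE]
      exact h1 i
    · intro j
      by_cases hj : ∃ i, Fin.castLE hab i = j
      · obtain ⟨i, rfl⟩ := hj
        rw [ex_castLE, Finset.sum_eq_single i]
        · rw [if_pos rfl]; exact h2 i
        · intro k _ hk
          rw [if_neg]
          intro h
          exact hk (Fin.castLE_injective hab h)
        · intro h; exact absurd (Finset.mem_univ _) h
      · rw [ex_off hab _ j hj, mul_zero]
        refine Finset.sum_eq_zero fun i _ => ?_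
        rw [if_neg]
        intro h
        exact hj ⟨i, h⟩

include he0 hee hf0 hff in
lemma psi_coord (z : (Fin a → ℂ) × (Fin a → ℂ)) :
    (∀ i, z.1 i = ((a : ℂ) + 1) * ∑ s, (∑ t, psi hab e f z s t) * e i s) ∧
    (∀ i, z.2 i = ((b : ℂ) + 1) * ∑ t, (∑ s, psi hab e f z s t) * f (Fin.castLE hab i) t) := by
  have ha : ((a : ℂ) + 1) ≠ 0 := Nat.cast_add_one_ne_zero a
  have hb : ((b : ℂ) + 1) ≠ 0 := Nat.cast_add_one_ne_zero b
  constructor
  · intro i
    have h1 : ∀ s, ∑ t, psi hab e f z s t = uu e z.1 s := by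
      intro s
      simp only [psi, vecMulVec_apply, ← Finset.mul_sum, sum_uu f hf0, mul_one]
    simp only [h1, uu_dot e he0 hee]
    field_simp
  · intro i
    have h1 : ∀ t, ∑ s, psi hab e f z s t = uu f (ex hab z.2) t := by
      intro t
      simp only [psi, vecMulVec_apply, ← Finset.sum_mul, sum_uu e he0, one_mul]
    simp only [h1, uu_dot f hf0 hff, ex_castLE]
    field_simp

include he0 hee hf0 hff in
lemma psi_inj : Function.Injective (psi hab e f) := by
  intro z w h
  have h1 := psi_coord hab e f he0 hee hf0 hff z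
  have h2 := psi_coord hab e f he0 hee hf0 hff w
  rw [h] at h1
  ext i
  · rw [h1.1 i, h2.1 i]
  · rw [h1.2 i, h2.2 i]

include he0 hee hf0 hff in
lemma psi_real (z : (Fin a → ℂ) × (Fin a → ℂ)) :
    (∀ s t, (psi hab e f z s t).im = 0) ↔ IsReal z := by
  constructor
  · intro h
    have h0 : ∀ s t, psi hab e f z s t = ((psi hab e f z s t).re : ℂ) := by
      intro s t
      apply Complex.ext
      · simp
      · simp [h s t]
    have h1 := psi_coord hab e f he0 hee hf0 hff z
    constructor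
    · intro i
      have h3 : z.1 i = ((((a : ℝ) + 1) * ∑ s, (∑ t, (psi hab e f z s t).re) * e i s : ℝ) : ℂ) := by
        rw [h1.1 i]
        push_cast
        congr 1
        refine Finset.sum_congr rfl fun s _ => ?_
        congr 1
        exact Finset.sum_congr rfl fun t _ => h0 s t
      rw [h3, Complex.ofReal_im]
    · intro i
      have h3 : z.2 i = ((((b : ℝ) + 1) * ∑ t, (∑ s, (psi hab e f z s t).re) *
          f (Fin.castLE hab i) t : ℝ) : ℂ) := by
        rw [h1.2 i]
        push_cast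
        congr 1
        refine Finset.sum_congr rfl fun t _ => ?_
        congr 1
        exact Finset.sum_congr rfl fun s _ => h0 s t
      rw [h3, Complex.ofReal_im]
  · rintro ⟨h1, h2⟩ s t
    have hu : (uu e z.1 s).im = 0 := by
      have : uu e z.1 s = ((1 / ((a : ℝ) + 1) + ∑ i, (z.1 i).re * e i s : ℝ) : ℂ) := by
        rw [uu]
        push_cast
        congr 1
        refine Finset.sum_congr rfl fun i _ => ?_
        congr 1
        apply Complex.ext
        · simp
        · simp [h1 i]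
      rw [this, Complex.ofReal_im]
    have hex : ∀ j, (ex hab z.2 j).im = 0 := by
      intro j
      by_cases hj : ∃ i, Fin.castLE hab i = j
      · obtain ⟨i, rfl⟩ := hj
        rw [ex_castLE]; exact h2 i
      · rw [ex_off hab _ j hj]; rfl
    have hv : (uu f (ex hab z.2) t).im = 0 := by
      have : uu f (ex hab z.2) t =
          ((1 / ((b : ℝ) + 1) + ∑ i, (ex hab z.2 i).re * f i t : ℝ) : ℂ) := by
        rw [uu]
        push_cast
        congr 1
        refine Finset.sum_congr rfl fun i _ => ?_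
        congr 1
        apply Complex.ext
        · simp
        · simp [hex i]
      rw [this, Complex.ofReal_im]
    simp only [psi, vecMulVec_apply, Complex.mul_im, hu, hv, mul_zero, zero_mul, add_zero]

end bij

lemma exists_T {a b : ℕ} (hab : a ≤ b) (σ p : Fin a → ℝ) (hσ : ∀ i, 0 < σ i) :
    ∃ T : Matrix (Fin (a + 1)) (Fin (b + 1)) ℝ, ∑ i, ∑ j, T i j = 1 ∧
      (critSet T).ncard = (Sol σ p).ncard ∧
      (realCritSet T).ncard = {z ∈ Sol σ p | IsReal z}.ncard := by
  obtain ⟨e, he0, hee, hec⟩ := exists_frame a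
  obtain ⟨f, hf0, hff, hfc⟩ := exists_frame b
  have hI := psi_inj hab e f he0 hee hf0 hff
  have hC := crit_image hab e f σ p he0 hee hec hf0 hff hfc hσ
  refine ⟨TT hab e f σ p, TT_total hab e f σ p he0 hf0, ?_, ?_⟩
  · rw [hC, Set.ncard_image_of_injective _ hI]
  · have : realCritSet (TT hab e f σ p) = psi hab e f '' {z ∈ Sol σ p | IsReal z} := by
      ext x
      constructor
      · rintro ⟨h1, h2⟩
        rw [hC] at h1
        obtain ⟨z, hz, rfl⟩ := h1
        exact ⟨z, ⟨hz, (psi_real hab e f he0 hee hf0 hff z).1 h2⟩, rfl⟩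
      · rintro ⟨z, ⟨hz, hr⟩, rfl⟩
        refine ⟨?_, (psi_real hab e f he0 hee hf0 hff z).2 hr⟩
        rw [hC]
        exact ⟨z, hz, rfl⟩
    rw [this, Set.ncard_image_of_injective _ hI]

lemma exists_le {a b : ℕ} (ha : 1 ≤ a) (hab : a ≤ b) (k : ℕ) (hk : Odd k) (hk2 : k ≤ 4 * a + 1) :
    ∃ T : Matrix (Fin (a + 1)) (Fin (b + 1)) ℝ, ∑ i, ∑ j, T i j = 1 ∧
      (critSet T).ncard = 4 * a + 1 ∧ (realCritSet T).ncard = k := by
  obtain ⟨q, rfl⟩ := hk
  by_cases hq : q ≤ a
  · obtain ⟨σ, h1, h2, h3⟩ := sol_zero (m := a) q hq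
    obtain ⟨T, hT, e1, e2⟩ := exists_T hab σ 0 h1
    exact ⟨T, hT, by rw [e1, h2], by rw [e2, h3]⟩
  · obtain ⟨σ, p, h1, h2, h3⟩ := sol_sym (m := a) ⟨0, ha⟩ (q - a) (by omega)
    obtain ⟨T, hT, e1, e2⟩ := exists_T hab σ p h1
    exact ⟨T, hT, by rw [e1, h2], by rw [e2, h3]; omega⟩

/-! ### Transposition -/

lemma total_tr {a b : ℕ} (x : Matrix (Fin (a + 1)) (Fin (b + 1)) ℂ) :
    total xᵀ = total x := by
  show ∑ i, ∑ j, x j i = _
  rw [Finset.sum_comm]; rfl

lemma frob_tr {a b : ℕ} (x y : Matrix (Fin (a + 1)) (Fin (b + 1)) ℂ) :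
    frob xᵀ yᵀ = frob x y := by
  rw [frob, frob, Finset.sum_comm]; rfl

lemma crit_tr {a b : ℕ} (T x : Matrix (Fin (a + 1)) (Fin (b + 1)) ℂ) (h : IsCrit T x) :
    IsCrit Tᵀ xᵀ := by
  obtain ⟨h1, u, v, hx, h2⟩ := h
  refine ⟨by rw [total_tr]; exact h1, v, u, ?_, ?_⟩
  · rw [hx]; ext i j; simp [vecMulVec_apply, mul_comm]
  · intro v' u' h0
    have e1 : vecMulVec v' u + vecMulVec v u' = (vecMulVec u' v + vecMulVec u v')ᵀ := by
      ext i j
      simp only [Matrix.add_apply, Matrix.transpose_apply, vecMulVec_apply]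
      ring
    rw [e1, total_tr] at h0
    rw [e1, ← Matrix.transpose_sub, frob_tr]
    exact h2 u' v' h0

lemma critSet_tr {a b : ℕ} (T : Matrix (Fin (a + 1)) (Fin (b + 1)) ℝ) :
    critSet Tᵀ = Matrix.transpose '' critSet T ∧
    realCritSet Tᵀ = Matrix.transpose '' realCritSet T := by
  have h1 : ∀ x, x ∈ critSet Tᵀ ↔ xᵀ ∈ critSet T := by
    intro x
    constructor
    · intro h
      have := crit_tr _ _ h
      exact this
    · intro h
      have := crit_tr _ _ h
      exact this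
  constructor
  · ext x
    rw [h1]
    constructor
    · intro h; exact ⟨xᵀ, h, Matrix.transpose_transpose x⟩
    · rintro ⟨y, hy, rfl⟩; exact hy
  · ext x
    constructor
    · rintro ⟨h2, h3⟩
      exact ⟨xᵀ, ⟨(h1 x).1 h2, fun i j => h3 j i⟩, Matrix.transpose_transpose x⟩
    · rintro ⟨y, ⟨hy, hy2⟩, rfl⟩
      exact ⟨(h1 _).2 hy, fun i j => hy2 j i⟩

/-- **All matrix formats.**  For all `a, b ≥ 1` put `N = 4 min(a, b) + 1`.  The numbers `k` for
which there is a real matrix `T` of format `(a, b)` (size `(a+1) x (b+1)`) with entry sum `1` whose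
set of complex critical points on the matrices of rank at most one with entry sum `1` has exactly
`N` elements, exactly `k` of them real, are exactly the odd `k ≤ N`. -/
theorem result (a b : ℕ) (ha : 1 ≤ a) (hb : 1 ≤ b) :
    {k : ℕ | ∃ T : Matrix (Fin (a + 1)) (Fin (b + 1)) ℝ, ∑ i, ∑ j, T i j = 1 ∧
      (critSet T).ncard = 4 * min a b + 1 ∧ (realCritSet T).ncard = k} =
    {k : ℕ | Odd k ∧ k ≤ 4 * min a b + 1} := by
  ext k
  constructor
  · rintro ⟨T, hT, h1, h2⟩
    have hf : (critSet T).Finite := by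
      apply Set.finite_of_ncard_ne_zero
      rw [h1]; omega
    have hpar := parity T hf
    rw [h1, h2] at hpar
    obtain ⟨h3, h4⟩ := hpar
    refine ⟨?_, h4⟩
    rw [Nat.even_iff] at h3
    rw [Nat.odd_iff]
    omega
  · rintro ⟨hk, hk2⟩
    rcases le_total a b with hab | hab
    · rw [min_eq_left hab] at hk2 ⊢
      exact exists_le ha hab k hk hk2
    · rw [min_eq_right hab] at hk2 ⊢
      obtain ⟨T, hT, e1, e2⟩ := exists_le hb hab k hk hk2
      refine ⟨Tᵀ, ?_, ?_, ?_⟩
      · show ∑ i, ∑ j, T j i = 1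
        rw [Finset.sum_comm]; exact hT
      · rw [(critSet_tr T).1, Set.ncard_image_of_injective _ Matrix.transpose_injective, e1]
      · rw [(critSet_tr T).2, Set.ncard_image_of_injective _ Matrix.transpose_injective, e2]

end Pool.Agent.Results.MP_b0e20b_ag.AllMatrices
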