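import Mathlib

/-!
Real critical points of the affine distance to rank-one probability tensors: the formats (1, n).

A tensor of format `(a, b)` (two factors) is an `(a+1) x (b+1)` matrix.  For a real matrix `T` with
sum of entries `1` we look at the complex critical points of the squared distance to `T` on the
variety of rank-at-most-one matrices with sum of entries `1`.
-/

open scoped BigOperators
open Matrix

namespace Pool.Agent.Results.MP_b0e20b_ag.TwoByN

/-- The sum of all entries. -/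
def total {a b : ℕ} (T : Matrix (Fin (a + 1)) (Fin (b + 1)) ℂ) : ℂ := ∑ i, ∑ j, T i j

/-- The Frobenius bilinear form. -/
def frob {a b : ℕ} (S T : Matrix (Fin (a + 1)) (Fin (b + 1)) ℂ) : ℂ := ∑ i, ∑ j, S i j * T i j

/-- `x` is a critical point of `dist(., T)` on `S ∩ H`: it has the form `u vᵀ`, its entries sum to
`1`, and `T - x` is orthogonal to the tangent space of `S ∩ H` at `x`, which consists of the
matrices `u' vᵀ + u v'ᵀ` (the tangent vectors of `S` at `x`) whose entries sum to `0`. -/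
def IsCrit {a b : ℕ} (T x : Matrix (Fin (a + 1)) (Fin (b + 1)) ℂ) : Prop :=
  total x = 1 ∧ ∃ (u : Fin (a + 1) → ℂ) (v : Fin (b + 1) → ℂ), x = vecMulVec u v ∧
    ∀ (u' : Fin (a + 1) → ℂ) (v' : Fin (b + 1) → ℂ),
      total (vecMulVec u' v + vecMulVec u v') = 0 →
        frob (T - x) (vecMulVec u' v + vecMulVec u v') = 0

/-- The set of all complex critical points for the real matrix `T`. -/
def critSet {a b : ℕ} (T : Matrix (Fin (a + 1)) (Fin (b + 1)) ℝ) :
    Set (Matrix (Fin (a + 1)) (Fin (b + 1)) ℂ) :=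
  {x | IsCrit (T.map Complex.ofReal) x}

/-- The set of the real critical points for the real matrix `T`. -/
def realCritSet {a b : ℕ} (T : Matrix (Fin (a + 1)) (Fin (b + 1)) ℝ) :
    Set (Matrix (Fin (a + 1)) (Fin (b + 1)) ℂ) :=
  {x | x ∈ critSet T ∧ ∀ i j, (x i j).im = 0}

/-! ### Normalised form of the critical equations -/

lemma total_vecMulVec {a b : ℕ} (u : Fin (a + 1) → ℂ) (v : Fin (b + 1) → ℂ) :
    total (vecMulVec u v) = (∑ i, u i) * ∑ j, v j := by
  simp only [total, vecMulVec_apply, Finset.sum_mul_sum]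

lemma total_add {a b : ℕ} (x y : Matrix (Fin (a + 1)) (Fin (b + 1)) ℂ) :
    total (x + y) = total x + total y := by
  simp only [total, Matrix.add_apply, Finset.sum_add_distrib]

lemma frob_add {a b : ℕ} (z x y : Matrix (Fin (a + 1)) (Fin (b + 1)) ℂ) :
    frob z (x + y) = frob z x + frob z y := by
  simp only [frob, Matrix.add_apply, mul_add, Finset.sum_add_distrib]

lemma frob_smul {a b : ℕ} (z x : Matrix (Fin (a + 1)) (Fin (b + 1)) ℂ) (c : ℂ) :
    frob z (c • x) = c * frob z x := by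
  simp only [frob, Matrix.smul_apply, smul_eq_mul, Finset.mul_sum]
  refine Finset.sum_congr rfl fun i _ => Finset.sum_congr rfl fun j _ => by ring

lemma isCrit_iff {a b : ℕ} (T x : Matrix (Fin (a + 1)) (Fin (b + 1)) ℂ) :
    IsCrit T x ↔ ∃ (u : Fin (a + 1) → ℂ) (v : Fin (b + 1) → ℂ), (∑ i, u i) = 1 ∧ (∑ j, v j) = 1 ∧
      x = vecMulVec u v ∧
      (∀ u' : Fin (a + 1) → ℂ, (∑ i, u' i) = 0 → frob (T - x) (vecMulVec u' v) = 0) ∧
      (∀ v' : Fin (b + 1) → ℂ, (∑ j, v' j) = 0 → frob (T - x) (vecMulVec u v') = 0) := by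
  constructor
  · rintro ⟨h1, u, v, hx, h⟩
    have hprod : (∑ i, u i) * ∑ j, v j = 1 := by rw [← total_vecMulVec, ← hx]; exact h1
    have hu0 : (∑ i, u i) ≠ 0 := left_ne_zero_of_mul_eq_one hprod
    have hv0 : (∑ j, v j) ≠ 0 := right_ne_zero_of_mul_eq_one hprod
    set s := ∑ i, u i with hs
    set t := ∑ j, v j with ht
    refine ⟨fun i => t * u i, fun j => s * v j, ?_, ?_, ?_, ?_, ?_⟩
    · rw [← Finset.mul_sum, ← hs, mul_comm]; exact hprod
    · rw [← Finset.mul_sum, ← ht]; exact hprod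
    · rw [hx]; ext i j
      simp only [vecMulVec_apply]
      linear_combination (-(u i * v j)) * hprod
    · intro u' hu'
      have := h (fun i => s * u' i) 0 (by
        rw [total_add, total_vecMulVec, total_vecMulVec, ← Finset.mul_sum, hu']; simp)
      rw [← this]; congr 1
      ext i j; simp [vecMulVec_apply]; ring
    · intro v' hv'
      have := h 0 (fun j => t * v' j) (by
        rw [total_add, total_vecMulVec, total_vecMulVec, ← Finset.mul_sum, hv']; simp)
      rw [← this]; congr 1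
      ext i j; simp [vecMulVec_apply]; ring
  · rintro ⟨u, v, hu, hv, hx, hA, hB⟩
    refine ⟨by rw [hx, total_vecMulVec, hu, hv, one_mul], u, v, hx, ?_⟩
    intro u' v' h0
    rw [total_add, total_vecMulVec, total_vecMulVec, hu, hv, one_mul, mul_one] at h0
    set s := ∑ i, u' i with hs
    have e : vecMulVec u' v + vecMulVec u v' =
        vecMulVec (fun i => u' i - s * u i) v + vecMulVec u (fun j => v' j + s * v j) := by
      ext i j; simp [vecMulVec_apply]; ring
    rw [e, frob_add, hA _ (by rw [Finset.sum_sub_distrib, ← Finset.mul_sum, hu, ← hs]; ring),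
      hB _ (by rw [Finset.sum_add_distrib, ← Finset.mul_sum, hv]; linear_combination h0), add_zero]

/-! ### The format (1, n) -/

section
variable {n : ℕ}

/-- the row sum -/
def rS (T : Matrix (Fin 2) (Fin (n + 1)) ℂ) (j : Fin (n + 1)) : ℂ := T 0 j + T 1 j
/-- the row difference -/
def rD (T : Matrix (Fin 2) (Fin (n + 1)) ℂ) (j : Fin (n + 1)) : ℂ := T 0 j - T 1 j

/-- the constant `K` -/
noncomputable def kap (T : Matrix (Fin 2) (Fin (n + 1)) ℂ) (al : ℂ) : ℂ :=
  al * ((∑ j, rD T j) - al) / (n + 1)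

/-- the vector `(1 + al^2) v` -/
noncomputable def wv (T : Matrix (Fin 2) (Fin (n + 1)) ℂ) (al : ℂ) (j : Fin (n + 1)) : ℂ :=
  rS T j + al * rD T j - kap T al

/-- the left factor -/
noncomputable def uv (al : ℂ) : Fin 2 → ℂ := ![(1 + al) / 2, (1 - al) / 2]

/-- the quintic -/
def quint (d B E al : ℂ) : ℂ := (al - d) * (1 + al ^ 2) ^ 2 - B * (1 - al ^ 2) - E * al

noncomputable def cB (T : Matrix (Fin 2) (Fin (n + 1)) ℂ) : ℂ :=
  (n + 1) * (∑ j, rS T j * rD T j) - ∑ j, rD T j
noncomputable def cE (T : Matrix (Fin 2) (Fin (n + 1)) ℂ) : ℂ :=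
  (n + 1) * ((∑ j, rD T j ^ 2) - ∑ j, rS T j ^ 2) - (∑ j, rD T j) ^ 2 + 1

lemma sum_wv (T : Matrix (Fin 2) (Fin (n + 1)) ℂ) (hT : ∑ j, rS T j = 1) (al : ℂ) :
    ∑ j, wv T al j = 1 + al ^ 2 := by
  have hn : ((n : ℂ) + 1) ≠ 0 := Nat.cast_add_one_ne_zero n
  simp only [wv, Finset.sum_sub_distrib, Finset.sum_add_distrib, ← Finset.mul_sum, hT,
    Finset.sum_const, Finset.card_univ, Fintype.card_fin, nsmul_eq_mul, kap]
  push_cast
  field_simp
  ring

lemma quint_eq (T : Matrix (Fin 2) (Fin (n + 1)) ℂ) (hT : ∑ j, rS T j = 1) (al : ℂ) :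
    ((n : ℂ) + 1) * ∑ j, (rD T j * (1 + al ^ 2) * wv T al j - al * wv T al j ^ 2) =
      - quint (∑ j, rD T j) (cB T) (cE T) al := by
  have hn : ((n : ℂ) + 1) ≠ 0 := Nat.cast_add_one_ne_zero n
  have key : ∑ j, (rD T j * (1 + al ^ 2) * wv T al j - al * wv T al j ^ 2) =
      (1 + al ^ 2) * (∑ j, rS T j * rD T j) + (1 + al ^ 2) * al * (∑ j, rD T j ^ 2)
      - (1 + al ^ 2) * kap T al * (∑ j, rD T j)
      - al * (∑ j, rS T j ^ 2) - al ^ 3 * (∑ j, rD T j ^ 2) - al * (n + 1) * kap T al ^ 2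
      - 2 * al ^ 2 * (∑ j, rS T j * rD T j) + 2 * al * kap T al * (∑ j, rS T j)
      + 2 * al ^ 2 * kap T al * (∑ j, rD T j) := by
    simp only [Finset.mul_sum]
    have hc : al * (n + 1) * kap T al ^ 2 = ∑ _j : Fin (n + 1), al * kap T al ^ 2 := by
      simp only [Finset.sum_const, Finset.card_univ, Fintype.card_fin, nsmul_eq_mul]
      push_cast; ring
    rw [hc]
    simp only [← Finset.sum_add_distrib, ← Finset.sum_sub_distrib]
    refine Finset.sum_congr rfl fun j _ => ?_
    simp only [wv]; ring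
  rw [key, hT]
  simp only [quint, cB, cE, kap]
  field_simp
  ring

lemma sum2 (f : Fin (1 + 1) → ℂ) : ∑ i, f i = f 0 + f 1 := Fin.sum_univ_two f

lemma frob_two (S T : Matrix (Fin 2) (Fin (n + 1)) ℂ) :
    frob (a := 1) (b := n) S T = ∑ j, (S 0 j * T 0 j + S 1 j * T 1 j) := by
  rw [frob, sum2, ← Finset.sum_add_distrib]

lemma isCrit_two (T x : Matrix (Fin 2) (Fin (n + 1)) ℂ) :
    IsCrit (a := 1) (b := n) T x ↔ ∃ (u : Fin 2 → ℂ) (v : Fin (n + 1) → ℂ),
      u 0 + u 1 = 1 ∧ (∑ j, v j) = 1 ∧ x = vecMulVec u v ∧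
      (∀ u' : Fin 2 → ℂ, u' 0 + u' 1 = 0 →
        ∑ j, ((T 0 j - u 0 * v j) * (u' 0 * v j) + (T 1 j - u 1 * v j) * (u' 1 * v j)) = 0) ∧
      (∀ v' : Fin (n + 1) → ℂ, (∑ j, v' j) = 0 →
        ∑ j, ((T 0 j - u 0 * v j) * (u 0 * v' j) + (T 1 j - u 1 * v j) * (u 1 * v' j)) = 0) := by
  rw [isCrit_iff (a := 1) (b := n) T x]
  constructor
  · rintro ⟨u, v, h1, h2, h3, h4, h5⟩
    rw [sum2] at h1
    refine ⟨u, v, h1, h2, h3, fun u' hu' => ?_, fun v' hv' => ?_⟩
    · have := h4 u' (by rw [sum2]; exact hu')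
      rw [frob_two, h3] at this
      exact this
    · have := h5 v' hv'
      rw [frob_two, h3] at this
      exact this
  · rintro ⟨u, v, h1, h2, h3, h4, h5⟩
    refine ⟨u, v, by rw [sum2]; exact h1, h2, h3, fun u' hu' => ?_, fun v' hv' => ?_⟩
    · rw [sum2] at hu'
      rw [frob_two, h3]
      exact h4 u' hu'
    · rw [frob_two, h3]
      exact h5 v' hv'

/-- the critical point with parameter `al` -/
noncomputable def pt (T : Matrix (Fin 2) (Fin (n + 1)) ℂ) (al : ℂ) :
    Matrix (Fin 2) (Fin (n + 1)) ℂ :=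
  vecMulVec (uv al) (fun j => wv T al j / (1 + al ^ 2))

lemma crit_eqs (T x : Matrix (Fin 2) (Fin (n + 1)) ℂ) (hT : ∑ j, rS T j = 1)
    (hx : IsCrit (a := 1) (b := n) T x) :
    ∃ (al : ℂ) (v : Fin (n + 1) → ℂ), x = vecMulVec (uv al) v ∧ (∑ j, v j = 1) ∧
      (∀ j, (1 + al ^ 2) * v j = wv T al j) ∧ quint (∑ j, rD T j) (cB T) (cE T) al = 0 := by
  have hn : ((n : ℂ) + 1) ≠ 0 := Nat.cast_add_one_ne_zero n
  obtain ⟨u, v, hu2, hv, rfl, hA, hB⟩ := (isCrit_two T x).1 hx
  obtain ⟨al, hal⟩ : ∃ al, al = u 0 - u 1 := ⟨_, rfl⟩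
  have h0 : u 0 = (1 + al) / 2 := by rw [hal]; linear_combination (1/2) * hu2
  have h1 : u 1 = (1 - al) / 2 := by rw [hal]; linear_combination (1/2) * hu2
  have hue : u = uv al := by
    funext i
    fin_cases i
    · simpa [uv] using h0
    · simpa [uv] using h1
  have hC1 : ∑ j, (rD T j - al * v j) * v j = 0 := by
    rw [← hA ![1, -1] (by simp)]
    refine Finset.sum_congr rfl fun j _ => ?_
    simp only [rD, hal]
    simp
    ring
  have hcj : ∀ j, rS T j + al * rD T j - (1 + al ^ 2) * v j =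
      rS T 0 + al * rD T 0 - (1 + al ^ 2) * v 0 := by
    intro j
    have hB1 := hB (fun k => (if k = j then 1 else 0) - (if k = 0 then 1 else 0))
      (by rw [Finset.sum_sub_distrib]; simp)
    have e : ∑ k, ((T 0 k - u 0 * v k) * (u 0 * ((if k = j then 1 else 0) -
          (if k = 0 then 1 else 0))) + (T 1 k - u 1 * v k) * (u 1 * ((if k = j then 1 else 0) -
          (if k = 0 then 1 else 0)))) =
        ((T 0 j - u 0 * v j) * u 0 + (T 1 j - u 1 * v j) * u 1) -
        ((T 0 0 - u 0 * v 0) * u 0 + (T 1 0 - u 1 * v 0) * u 1) := by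
      have e1 : ∀ k : Fin (n + 1), ((T 0 k - u 0 * v k) * (u 0 * ((if k = j then 1 else 0) -
          (if k = 0 then 1 else 0))) + (T 1 k - u 1 * v k) * (u 1 * ((if k = j then 1 else 0) -
          (if k = 0 then 1 else 0)))) =
          (if k = j then ((T 0 k - u 0 * v k) * u 0 + (T 1 k - u 1 * v k) * u 1) else 0) -
          (if k = 0 then ((T 0 k - u 0 * v k) * u 0 + (T 1 k - u 1 * v k) * u 1) else 0) := by
        intro k
        split_ifs <;> ring
      rw [Finset.sum_congr rfl (fun k _ => e1 k), Finset.sum_sub_distrib]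
      simp
    rw [e, h0, h1] at hB1
    simp only [rS, rD]
    linear_combination 2 * hB1
  have hsum : ∑ j, (rS T j + al * rD T j - (1 + al ^ 2) * v j) =
      1 + al * (∑ j, rD T j) - (1 + al ^ 2) := by
    rw [Finset.sum_sub_distrib, Finset.sum_add_distrib, hT, ← Finset.mul_sum, ← Finset.mul_sum, hv]
    ring
  have hK : rS T 0 + al * rD T 0 - (1 + al ^ 2) * v 0 = kap T al := by
    rw [Finset.sum_congr rfl (fun j _ => hcj j)] at hsum
    simp only [Finset.sum_const, Finset.card_univ, Fintype.card_fin, nsmul_eq_mul] at hsum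
    push_cast at hsum
    rw [kap, eq_div_iff hn]
    linear_combination hsum
  have hw : ∀ j, (1 + al ^ 2) * v j = wv T al j := by
    intro j
    rw [wv, ← hK, ← hcj j]; ring
  refine ⟨al, v, by rw [← hue], hv, hw, ?_⟩
  have h2 := quint_eq T hT al
  have h3 : ∑ j, (rD T j * (1 + al ^ 2) * wv T al j - al * wv T al j ^ 2) =
      (1 + al ^ 2) ^ 2 * ∑ j, (rD T j - al * v j) * v j := by
    rw [Finset.mul_sum]
    refine Finset.sum_congr rfl fun j _ => ?_
    rw [← hw j]; ring
  rw [h3, hC1, mul_zero, mul_zero] at h2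
  linear_combination h2

lemma pt_crit (T : Matrix (Fin 2) (Fin (n + 1)) ℂ) (hT : ∑ j, rS T j = 1) (al : ℂ)
    (h1 : 1 + al ^ 2 ≠ 0) (hq : quint (∑ j, rD T j) (cB T) (cE T) al = 0) :
    IsCrit (a := 1) (b := n) T (pt T al) := by
  have hn : ((n : ℂ) + 1) ≠ 0 := Nat.cast_add_one_ne_zero n
  refine (isCrit_two T _).2 ⟨uv al, fun j => wv T al j / (1 + al ^ 2), ?_, ?_,
    rfl, ?_, ?_⟩
  · simp [uv]; ring
  · rw [← Finset.sum_div, sum_wv T hT, div_self h1]
  · intro u' hu2
    have hu1 : u' 1 = - u' 0 := by linear_combination hu2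
    have e : ∑ j, ((T 0 j - uv al 0 * (wv T al j / (1 + al ^ 2))) *
          (u' 0 * (wv T al j / (1 + al ^ 2))) + (T 1 j - uv al 1 * (wv T al j / (1 + al ^ 2))) *
          (u' 1 * (wv T al j / (1 + al ^ 2)))) =
        u' 0 / (1 + al ^ 2) ^ 2 *
          ∑ j, (rD T j * (1 + al ^ 2) * wv T al j - al * wv T al j ^ 2) := by
      rw [Finset.mul_sum]
      refine Finset.sum_congr rfl fun j _ => ?_
      simp only [rD, uv, hu1]
      simp
      field_simp
      ring
    have h2 := quint_eq T hT al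
    rw [hq, neg_zero] at h2
    have h3 := (mul_eq_zero.1 h2).resolve_left hn
    rw [e, h3, mul_zero]
  · intro v' hv'
    have e : ∑ j, ((T 0 j - uv al 0 * (wv T al j / (1 + al ^ 2))) * (uv al 0 * v' j) +
          (T 1 j - uv al 1 * (wv T al j / (1 + al ^ 2))) * (uv al 1 * v' j)) =
        (kap T al / 2) * ∑ j, v' j := by
      rw [Finset.mul_sum]
      refine Finset.sum_congr rfl fun j _ => ?_
      simp only [uv, wv, rS, rD]
      simp
      field_simp
      ring
    rw [e, hv', mul_zero]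

/-! ### Real data -/

/-- the complexification -/
noncomputable abbrev cx (T : Matrix (Fin 2) (Fin (n + 1)) ℝ) : Matrix (Fin 2) (Fin (n + 1)) ℂ :=
  T.map Complex.ofReal

lemma sum_pt (T : Matrix (Fin 2) (Fin (n + 1)) ℂ) (hT : ∑ j, rS T j = 1) (al : ℂ)
    (h1 : 1 + al ^ 2 ≠ 0) : ∑ j, (pt T al 0 j - pt T al 1 j) = al := by
  have : ∀ j, pt T al 0 j - pt T al 1 j = al / (1 + al ^ 2) * wv T al j := by
    intro j
    simp only [pt, vecMulVec_apply, uv]
    simp
    field_simp
    ring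
  rw [Finset.sum_congr rfl (fun j _ => this j), ← Finset.mul_sum, sum_wv T hT,
    div_mul_cancel₀ _ h1]

lemma real_crit (T : Matrix (Fin 2) (Fin (n + 1)) ℝ) (hT : ∑ i, ∑ j, T i j = 1)
    (hne : ∃ i j j', T i j ≠ T i j') (x : Matrix (Fin 2) (Fin (n + 1)) ℂ)
    (hx : x ∈ critSet (a := 1) (b := n) T) :
    ∃ al : ℂ, quint (∑ j, rD (cx T) j) (cB (cx T)) (cE (cx T)) al = 0 ∧ 1 + al ^ 2 ≠ 0 ∧
      x = pt (cx T) al := by
  have hS : ∑ j, rS (cx T) j = 1 := by
    rw [Fin.sum_univ_two, ← Finset.sum_add_distrib] at hT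
    simp only [rS, cx, Matrix.map_apply]
    exact_mod_cast hT
  obtain ⟨al, v, hxv, hv, hw, hq⟩ := crit_eqs (cx T) x hS hx
  have h1 : 1 + al ^ 2 ≠ 0 := by
    intro h0
    have hre : al.re ^ 2 - al.im ^ 2 = -1 := by
      have := congrArg Complex.re h0
      simp [pow_two] at this
      linarith
    have him : al.re * al.im = 0 := by
      have := congrArg Complex.im h0
      simp [pow_two] at this
      linarith
    have him0 : al.im ≠ 0 := by
      intro h
      rw [h] at hre
      nlinarith [sq_nonneg al.re]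
    have hre0 : al.re = 0 := (mul_eq_zero.1 him).resolve_right him0
    have hw0 : ∀ j, wv (cx T) al j = 0 := by
      intro j
      rw [← hw j, h0, zero_mul]
    obtain ⟨i, j, j', hij⟩ := hne
    have hd : ((T 0 j + T 1 j - T 0 j' - T 1 j' : ℝ) : ℂ) +
        al * ((T 0 j - T 1 j - T 0 j' + T 1 j' : ℝ) : ℂ) = 0 := by
      have := (hw0 j).trans (hw0 j').symm
      simp only [wv, rS, rD, cx, Matrix.map_apply] at this
      push_cast
      linear_combination this
    have hd1 := congrArg Complex.im hd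
    have hd2 := congrArg Complex.re hd
    simp only [Complex.add_im, Complex.mul_im, Complex.ofReal_im, Complex.ofReal_re, mul_zero,
      zero_add, Complex.zero_im] at hd1
    simp only [Complex.add_re, Complex.mul_re, Complex.ofReal_im, Complex.ofReal_re, mul_zero,
      hre0, zero_mul, sub_zero, add_zero, Complex.zero_re] at hd2
    have hd3 := (mul_eq_zero.1 hd1).resolve_left him0
    apply hij
    fin_cases i
    · show T 0 j = T 0 j'
      linarith
    · show T 1 j = T 1 j'
      linarith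
  refine ⟨al, hq, h1, ?_⟩
  rw [hxv, pt]
  congr 1
  funext j
  rw [eq_div_iff h1, ← hw j, mul_comm]

lemma quint_roots (d B E : ℂ) :
    {al : ℂ | quint d B E al = 0}.Finite ∧ {al : ℂ | quint d B E al = 0}.ncard ≤ 5 := by
  classical
  set P : Polynomial ℂ := Polynomial.X ^ 5 - Polynomial.C d * Polynomial.X ^ 4 +
    Polynomial.C 2 * Polynomial.X ^ 3 + Polynomial.C (B - 2 * d) * Polynomial.X ^ 2 +
    Polynomial.C (1 - E) * Polynomial.X - Polynomial.C (d + B) with hP
  have hdeg : P.natDegree = 5 := by rw [hP]; compute_degree!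
  have hP0 : P ≠ 0 := by
    intro h; rw [h] at hdeg; simp at hdeg
  have hset : {al : ℂ | quint d B E al = 0} = (P.roots.toFinset : Set ℂ) := by
    ext al
    simp only [Set.mem_ofPred_eq, Finset.mem_coe, Multiset.mem_toFinset,
      Polynomial.mem_roots hP0, Polynomial.IsRoot.def]
    have : Polynomial.eval al P = quint d B E al := by
      rw [hP]; simp [quint]; ring
    rw [this]
  rw [hset]
  refine ⟨Finset.finite_toSet _, ?_⟩
  rw [Set.ncard_coe_finset]
  calc P.roots.toFinset.card ≤ Multiset.card P.roots := Multiset.toFinset_card_le _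
    _ ≤ P.natDegree := Polynomial.card_roots' P
    _ = 5 := hdeg

lemma crit_finite (T : Matrix (Fin 2) (Fin (n + 1)) ℝ) (hT : ∑ i, ∑ j, T i j = 1)
    (hne : ∃ i j j', T i j ≠ T i j') :
    (critSet (a := 1) (b := n) T).Finite ∧ (critSet (a := 1) (b := n) T).ncard ≤ 5 := by
  have h := quint_roots (∑ j, rD (cx T) j) (cB (cx T)) (cE (cx T))
  have hsub : critSet (a := 1) (b := n) T ⊆
      pt (cx T) '' {al : ℂ | quint (∑ j, rD (cx T) j) (cB (cx T)) (cE (cx T)) al = 0} := by
    intro x hx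
    obtain ⟨al, h1, _, h3⟩ := real_crit T hT hne x hx
    exact ⟨al, h1, h3.symm⟩
  exact ⟨(h.1.image _).subset hsub,
    (Set.ncard_le_ncard hsub (h.1.image _)).trans ((Set.ncard_image_le h.1).trans h.2)⟩

lemma conj_pt (T : Matrix (Fin 2) (Fin (n + 1)) ℝ) (al : ℂ) (i : Fin 2) (j : Fin (n + 1)) :
    (starRingEnd ℂ) (pt (cx T) al i j) = pt (cx T) ((starRingEnd ℂ) al) i j := by
  have hu : (starRingEnd ℂ) (uv al i) = uv ((starRingEnd ℂ) al) i := by
    fin_cases i <;> simp [uv, map_ofNat]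
  simp only [pt, vecMulVec_apply, map_mul, hu]
  congr 1
  simp [wv, kap, rS, rD]

lemma crit_param (T : Matrix (Fin 2) (Fin (n + 1)) ℝ) (hT : ∑ i, ∑ j, T i j = 1)
    (hne : ∃ i j j', T i j ≠ T i j')
    (h1 : ∀ al, quint (∑ j, rD (cx T) j) (cB (cx T)) (cE (cx T)) al = 0 → 1 + al ^ 2 ≠ 0) :
    (critSet (a := 1) (b := n) T).ncard =
      {al : ℂ | quint (∑ j, rD (cx T) j) (cB (cx T)) (cE (cx T)) al = 0}.ncard ∧
    (realCritSet (a := 1) (b := n) T).ncard =
      {al : ℂ | quint (∑ j, rD (cx T) j) (cB (cx T)) (cE (cx T)) al = 0 ∧ al.im = 0}.ncard := by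
  have hS : ∑ j, rS (cx T) j = 1 := by
    rw [Fin.sum_univ_two, ← Finset.sum_add_distrib] at hT
    simp only [rS, cx, Matrix.map_apply]
    exact_mod_cast hT
  have hinj : Set.InjOn (pt (cx T))
      {al : ℂ | quint (∑ j, rD (cx T) j) (cB (cx T)) (cE (cx T)) al = 0} := by
    intro a ha b hb hab
    rw [← sum_pt (cx T) hS a (h1 a ha), ← sum_pt (cx T) hS b (h1 b hb), hab]
  constructor
  · have : critSet (a := 1) (b := n) T =
        pt (cx T) '' {al : ℂ | quint (∑ j, rD (cx T) j) (cB (cx T)) (cE (cx T)) al = 0} := by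
      ext x
      constructor
      · intro hx
        obtain ⟨al, h1, _, h3⟩ := real_crit T hT hne x hx
        exact ⟨al, h1, h3.symm⟩
      · rintro ⟨al, hal, rfl⟩
        exact pt_crit (cx T) hS al (h1 al hal) hal
    rw [this, hinj.ncard_image]
  · have : realCritSet (a := 1) (b := n) T = pt (cx T) ''
        {al : ℂ | quint (∑ j, rD (cx T) j) (cB (cx T)) (cE (cx T)) al = 0 ∧ al.im = 0} := by
      ext x
      constructor
      · rintro ⟨hx, him⟩
        obtain ⟨al, h1, h2, h3⟩ := real_crit T hT hne x hx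
        refine ⟨al, ⟨h1, ?_⟩, h3.symm⟩
        have := congrArg Complex.im (sum_pt (cx T) hS al h2)
        rw [← this, ← h3, Complex.im_sum]
        exact Finset.sum_eq_zero fun j _ => by
          rw [Complex.sub_im, him 0 j, him 1 j, sub_zero]
      · rintro ⟨al, ⟨hal, him⟩, rfl⟩
        refine ⟨pt_crit (cx T) hS al (h1 al hal) hal, fun i j => ?_⟩
        rw [← Complex.conj_eq_iff_im, conj_pt, Complex.conj_eq_iff_im.2 him]
    rw [this, (hinj.mono fun a ha => ha.1).ncard_image]

/-! ### Existence of data with a prescribed quintic -/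

lemma exists_xy (c B E : ℝ) (hc : 0 < c) : ∃ x y : ℝ, c * (x * y) = B ∧ c * (x ^ 2 - y ^ 2) = E := by
  obtain ⟨z, hz⟩ := IsAlgClosed.exists_pow_nat_eq (((E / c : ℝ) : ℂ) + ((2 * B / c : ℝ) : ℂ) * Complex.I)
    (n := 2) (by norm_num)
  refine ⟨z.re, z.im, ?_, ?_⟩
  · have := congrArg Complex.im hz
    simp only [pow_two, Complex.mul_im, Complex.add_im, Complex.ofReal_im, Complex.ofReal_re,
      Complex.I_im, Complex.I_re, mul_one, mul_zero, zero_add, add_zero] at this
    field_simp at this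
    linarith
  · have := congrArg Complex.re hz
    simp only [pow_two, Complex.mul_re, Complex.add_re, Complex.ofReal_im, Complex.ofReal_re,
      Complex.I_im, Complex.I_re, mul_one, mul_zero, sub_zero, add_zero] at this
    field_simp at this
    linarith

lemma exists_data (hn : 1 ≤ n) (d B E : ℝ) (h0 : B ≠ 0 ∨ E ≠ 0) :
    ∃ T : Matrix (Fin 2) (Fin (n + 1)) ℝ, ∑ i, ∑ j, T i j = 1 ∧ (∃ i j j', T i j ≠ T i j') ∧
      (∑ j, rD (cx T) j) = (d : ℂ) ∧ cB (cx T) = (B : ℂ) ∧ cE (cx T) = (E : ℂ) := by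
  have hm : (0 : ℝ) < 2 * (n + 1) := by positivity
  have hm1 : ((n : ℝ) + 1) ≠ 0 := by positivity
  obtain ⟨x, y, hxy, hxx⟩ := exists_xy (2 * (n + 1)) B E hm
  set e : Fin (n + 1) → ℝ := fun j => (if j = 0 then 1 else 0) - (if j = Fin.last n then 1 else 0)
    with he
  have h0l : (0 : Fin (n + 1)) ≠ Fin.last n := by
    intro h
    have := congrArg Fin.val h
    simp at this
    omega
  have hse : ∑ j, e j = 0 := by rw [he, Finset.sum_sub_distrib]; simp
  have hse2 : ∑ j, e j ^ 2 = 2 := by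
    have : ∀ j, e j ^ 2 = (if j = 0 then 1 else 0) + (if j = Fin.last n then 1 else 0) := by
      intro j
      simp only [he]
      by_cases h1 : j = 0
      · subst h1; rw [if_pos rfl, if_neg h0l]; norm_num
      · by_cases h2 : j = Fin.last n
        · rw [if_neg h1, if_pos h2]; norm_num
        · rw [if_neg h1, if_neg h2]; norm_num
    rw [Finset.sum_congr rfl (fun j _ => this j), Finset.sum_add_distrib]
    simp; norm_num
  set S : Fin (n + 1) → ℝ := fun j => 1 / (n + 1) + y * e j with hS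
  set D : Fin (n + 1) → ℝ := fun j => d / (n + 1) + x * e j with hD
  have hsS : ∑ j, S j = 1 := by
    rw [hS, Finset.sum_add_distrib, ← Finset.mul_sum, hse]
    simp
    field_simp
  have hsD : ∑ j, D j = d := by
    rw [hD, Finset.sum_add_distrib, ← Finset.mul_sum, hse]
    simp
    field_simp
  have hSD : ∑ j, S j * D j = d / (n + 1) + 2 * (x * y) := by
    have : ∀ j, S j * D j = d / ((n + 1) * (n + 1)) + ((x + y * d) / (n + 1)) * e j +
        (x * y) * e j ^ 2 := by
      intro j; simp only [hS, hD]; field_simp; ring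
    rw [Finset.sum_congr rfl (fun j _ => this j), Finset.sum_add_distrib, Finset.sum_add_distrib,
      ← Finset.mul_sum, ← Finset.mul_sum, hse, hse2]
    simp
    field_simp
  have hDD : ∑ j, D j ^ 2 = d ^ 2 / (n + 1) + 2 * x ^ 2 := by
    have : ∀ j, D j ^ 2 = d ^ 2 / ((n + 1) * (n + 1)) + (2 * d * x / (n + 1)) * e j +
        x ^ 2 * e j ^ 2 := by
      intro j; simp only [hD]; field_simp; ring
    rw [Finset.sum_congr rfl (fun j _ => this j), Finset.sum_add_distrib, Finset.sum_add_distrib,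
      ← Finset.mul_sum, ← Finset.mul_sum, hse, hse2]
    simp
    field_simp
  have hSS : ∑ j, S j ^ 2 = 1 / (n + 1) + 2 * y ^ 2 := by
    have : ∀ j, S j ^ 2 = 1 / ((n + 1) * (n + 1)) + (2 * y / (n + 1)) * e j +
        y ^ 2 * e j ^ 2 := by
      intro j; simp only [hS]; field_simp; ring
    rw [Finset.sum_congr rfl (fun j _ => this j), Finset.sum_add_distrib, Finset.sum_add_distrib,
      ← Finset.mul_sum, ← Finset.mul_sum, hse, hse2]
    simp
    field_simp
  set T : Matrix (Fin 2) (Fin (n + 1)) ℝ :=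
    Matrix.of ![fun j => (S j + D j) / 2, fun j => (S j - D j) / 2] with hTd
  have hT0 : ∀ j, T 0 j = (S j + D j) / 2 := fun j => rfl
  have hT1 : ∀ j, T 1 j = (S j - D j) / 2 := fun j => rfl
  have hrS : ∀ j, rS (cx T) j = (S j : ℂ) := by
    intro j
    simp only [rS, cx, Matrix.map_apply, hT0, hT1]
    push_cast; ring
  have hrD : ∀ j, rD (cx T) j = (D j : ℂ) := by
    intro j
    simp only [rD, cx, Matrix.map_apply, hT0, hT1]
    push_cast; ring
  refine ⟨T, ?_, ?_, ?_, ?_, ?_⟩
  · rw [Fin.sum_univ_two, ← Finset.sum_add_distrib, ← hsS]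
    refine Finset.sum_congr rfl fun j _ => ?_
    rw [hT0, hT1]; ring
  · by_contra hcon
    push Not at hcon
    have e0 : e 0 = 1 := by simp [he, h0l]
    have e1 : e (Fin.last n) = -1 := by simp [he, h0l.symm]
    have h1 := hcon 0 0 (Fin.last n)
    have h2 := hcon 1 0 (Fin.last n)
    rw [hT0, hT0] at h1
    rw [hT1, hT1] at h2
    simp only [hS, hD, e0, e1] at h1 h2
    have hx : x = 0 := by linarith
    have hy : y = 0 := by linarith
    rw [hx, hy] at hxy hxx
    rcases h0 with h | h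
    · apply h; rw [← hxy]; ring
    · apply h; rw [← hxx]; ring
  · rw [Finset.sum_congr rfl (fun j _ => hrD j)]
    exact_mod_cast hsD
  · have e1 : ∑ j, rS (cx T) j * rD (cx T) j = ((∑ j, S j * D j : ℝ) : ℂ) := by
      push_cast
      exact Finset.sum_congr rfl fun j _ => by rw [hrS, hrD]
    have e2 : ∑ j, rD (cx T) j = ((∑ j, D j : ℝ) : ℂ) := by
      push_cast
      exact Finset.sum_congr rfl fun j _ => by rw [hrD]
    rw [cB, e1, e2, hSD, hsD]
    have : ((n : ℝ) + 1) * (d / (n + 1) + 2 * (x * y)) - d = B := by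
      rw [← hxy]; field_simp; ring
    exact_mod_cast this
  · have e1 : ∑ j, rD (cx T) j ^ 2 = ((∑ j, D j ^ 2 : ℝ) : ℂ) := by
      push_cast
      exact Finset.sum_congr rfl fun j _ => by rw [hrD]
    have e3 : ∑ j, rS (cx T) j ^ 2 = ((∑ j, S j ^ 2 : ℝ) : ℂ) := by
      push_cast
      exact Finset.sum_congr rfl fun j _ => by rw [hrS]
    have e2 : ∑ j, rD (cx T) j = ((∑ j, D j : ℝ) : ℂ) := by
      push_cast
      exact Finset.sum_congr rfl fun j _ => by rw [hrD]
    rw [cE, e1, e2, e3, hDD, hSS, hsD]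
    have : ((n : ℝ) + 1) * (d ^ 2 / (n + 1) + 2 * x ^ 2 - (1 / (n + 1) + 2 * y ^ 2)) - d ^ 2 + 1
        = E := by
      rw [← hxx]; field_simp; ring
    exact_mod_cast this

/-! ### The three root patterns -/

lemma ncard5 {a b c d e : ℂ} (h1 : a ≠ b) (h2 : a ≠ c) (h3 : a ≠ d) (h4 : a ≠ e) (h5 : b ≠ c)
    (h6 : b ≠ d) (h7 : b ≠ e) (h8 : c ≠ d) (h9 : c ≠ e) (h10 : d ≠ e) :
    ({a, b, c, d, e} : Set ℂ).ncard = 5 := by
  classical
  have : ({a, b, c, d, e} : Set ℂ) = (({a, b, c, d, e} : Finset ℂ) : Set ℂ) := by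
    simp
  rw [this, Set.ncard_coe_finset]
  simp [h1, h2, h3, h4, h5, h6, h7, h8, h9, h10]

lemma roots5 : {al : ℂ | quint ((129 / 14 : ℝ) : ℂ) ((1167 / 14 : ℝ) : ℂ) ((106 / 7 : ℝ) : ℂ) al = 0}
    = {-2, -9/7, 3/2, 3, 8} := by
  ext al
  have : quint ((129 / 14 : ℝ) : ℂ) ((1167 / 14 : ℝ) : ℂ) ((106 / 7 : ℝ) : ℂ) al =
      (al - (-2)) * ((al - (-9/7)) * ((al - 3/2) * ((al - 3) * (al - 8)))) := by
    simp only [quint]; push_cast; ring
  simp only [Set.mem_ofPred_eq, this, mul_eq_zero, sub_eq_zero, Set.mem_insert_iff,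
    Set.mem_singleton_iff]

lemma roots3 : {al : ℂ | quint ((0 : ℝ) : ℂ) ((0 : ℝ) : ℂ) ((25 / 16 : ℝ) : ℂ) al = 0}
    = {0, 1/2, -1/2, 3/2 * Complex.I, -(3/2 * Complex.I)} := by
  ext al
  have hI : Complex.I ^ 2 = -1 := Complex.I_sq
  have : quint ((0 : ℝ) : ℂ) ((0 : ℝ) : ℂ) ((25 / 16 : ℝ) : ℂ) al =
      (al - 0) * ((al - 1/2) * ((al - (-1/2)) * ((al - 3/2 * Complex.I) *
        (al - (-(3/2 * Complex.I)))))) := by
    simp only [quint]; push_cast
    linear_combination ((9/4) * al * (al ^ 2 - 1/4)) * hI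
  simp only [Set.mem_ofPred_eq, this, mul_eq_zero, sub_eq_zero, Set.mem_insert_iff,
    Set.mem_singleton_iff]

lemma roots1 : {al : ℂ | quint ((0 : ℝ) : ℂ) ((0 : ℝ) : ℂ) ((-225 / 64 : ℝ) : ℂ) al = 0}
    = {0, 3/4 + 5/4 * Complex.I, 3/4 - 5/4 * Complex.I, -3/4 + 5/4 * Complex.I,
        -3/4 - 5/4 * Complex.I} := by
  ext al
  have hI : Complex.I ^ 2 = -1 := Complex.I_sq
  have : quint ((0 : ℝ) : ℂ) ((0 : ℝ) : ℂ) ((-225 / 64 : ℝ) : ℂ) al =
      (al - 0) * ((al - (3/4 + 5/4 * Complex.I)) * ((al - (3/4 - 5/4 * Complex.I)) *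
        ((al - (-3/4 + 5/4 * Complex.I)) * (al - (-3/4 - 5/4 * Complex.I))))) := by
    have e1 : (al - (3/4 + 5/4 * Complex.I)) * (al - (3/4 - 5/4 * Complex.I)) =
        (al - 3/4) ^ 2 + 25/16 := by linear_combination (-25/16) * hI
    have e2 : (al - (-3/4 + 5/4 * Complex.I)) * (al - (-3/4 - 5/4 * Complex.I)) =
        (al + 3/4) ^ 2 + 25/16 := by linear_combination (-25/16) * hI
    rw [← mul_assoc (al - (3/4 + 5/4 * Complex.I)), e1, e2]
    simp only [quint]; push_cast; ring
  simp only [Set.mem_ofPred_eq, this, mul_eq_zero, sub_eq_zero, Set.mem_insert_iff,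
    Set.mem_singleton_iff]

/-! ### Parity -/

lemma even_nonfixed {A : Type*} [DecidableEq A] (s : Finset A) (c : A → A)
    (hc : ∀ x ∈ s, c x ∈ s) (hcc : ∀ x, c (c x) = x) : Even (s.filter (fun x => c x ≠ x)).card := by
  have h : ∑ x ∈ s.filter (fun x => c x ≠ x), (1 : ZMod 2) = 0 := by
    refine Finset.sum_involution (fun x _ => c x) ?_ ?_ ?_ ?_
    · intro x _; decide
    · intro x hx _
      exact (Finset.mem_filter.1 hx).2
    · intro x hx
      rw [Finset.mem_filter] at hx ⊢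
      refine ⟨hc x hx.1, ?_⟩
      rw [hcc]
      exact fun h => hx.2 h.symm
    · intro x _; exact hcc x
  rw [Finset.sum_const, nsmul_eq_mul, mul_one] at h
  exact (ZMod.natCast_eq_zero_iff_even).1 h

/-- entrywise complex conjugation -/
noncomputable def cj {a b : ℕ} (x : Matrix (Fin (a + 1)) (Fin (b + 1)) ℂ) :
    Matrix (Fin (a + 1)) (Fin (b + 1)) ℂ := x.map (starRingEnd ℂ)

lemma cj_cj {a b : ℕ} (x : Matrix (Fin (a + 1)) (Fin (b + 1)) ℂ) : cj (cj x) = x := by
  ext i j; simp [cj]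

lemma total_cj {a b : ℕ} (x : Matrix (Fin (a + 1)) (Fin (b + 1)) ℂ) :
    total (cj x) = (starRingEnd ℂ) (total x) := by
  simp [total, cj, map_sum]

lemma frob_cj {a b : ℕ} (x y : Matrix (Fin (a + 1)) (Fin (b + 1)) ℂ) :
    frob (cj x) (cj y) = (starRingEnd ℂ) (frob x y) := by
  simp [frob, cj, map_sum]

lemma crit_cj {a b : ℕ} (T : Matrix (Fin (a + 1)) (Fin (b + 1)) ℝ)
    (x : Matrix (Fin (a + 1)) (Fin (b + 1)) ℂ) (hx : x ∈ critSet T) : cj x ∈ critSet T := by
  obtain ⟨h1, u, v, hxu, h⟩ := hx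
  refine ⟨by rw [total_cj, h1, map_one], fun i => (starRingEnd ℂ) (u i),
    fun j => (starRingEnd ℂ) (v j), ?_, ?_⟩
  · rw [hxu]; ext i j; simp [cj, vecMulVec_apply]
  · intro u' v' h0
    have e : vecMulVec u' (fun j => (starRingEnd ℂ) (v j)) +
        vecMulVec (fun i => (starRingEnd ℂ) (u i)) v' =
        cj (vecMulVec (fun i => (starRingEnd ℂ) (u' i)) v +
          vecMulVec u (fun j => (starRingEnd ℂ) (v' j))) := by
      ext i j; simp [cj, vecMulVec_apply]
    have e2 : T.map Complex.ofReal - cj x = cj (T.map Complex.ofReal - x) := by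
      ext i j; simp [cj]
    rw [e, total_cj] at h0
    have h3 := h _ _ ((map_eq_zero _).1 h0)
    rw [e, e2, frob_cj, h3, map_zero]

lemma real_iff {a b : ℕ} (x : Matrix (Fin (a + 1)) (Fin (b + 1)) ℂ) :
    (∀ i j, (x i j).im = 0) ↔ cj x = x := by
  constructor
  · intro h; ext i j
    simp only [cj, Matrix.map_apply]
    exact Complex.conj_eq_iff_im.2 (h i j)
  · intro h i j
    have := congrFun (congrFun h i) j
    simp only [cj, Matrix.map_apply] at this
    exact Complex.conj_eq_iff_im.1 this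

lemma parity {a b : ℕ} (T : Matrix (Fin (a + 1)) (Fin (b + 1)) ℝ) (hf : (critSet T).Finite) :
    Even ((critSet T).ncard - (realCritSet T).ncard) ∧
      (realCritSet T).ncard ≤ (critSet T).ncard := by
  classical
  have h := even_nonfixed hf.toFinset cj
    (fun x hx => by rw [Set.Finite.mem_toFinset] at hx ⊢; exact crit_cj T x hx) cj_cj
  have hr : (realCritSet T) = ((hf.toFinset.filter (fun x => cj x = x) : Finset _) : Set _) := by
    ext x
    simp only [realCritSet, Finset.coe_filter, Set.Finite.mem_toFinset, Set.mem_ofPred_eq,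
      real_iff]
  have hcard : (hf.toFinset.filter (fun x => cj x = x)).card +
      (hf.toFinset.filter (fun x => cj x ≠ x)).card = hf.toFinset.card :=
    Finset.card_filter_add_card_filter_not _
  have e1 : (critSet T).ncard = hf.toFinset.card := Set.ncard_eq_toFinset_card _ hf
  have e2 : (realCritSet T).ncard = (hf.toFinset.filter (fun x => cj x = x)).card := by
    rw [hr, Set.ncard_coe_finset]
  rw [e1, e2, ← hcard]
  refine ⟨?_, by omega⟩
  rw [Nat.add_sub_cancel_left]
  exact h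

/-! ### Nonnegative data with three real critical points -/

lemma exists_nonneg (hn : 2 ≤ n) :
    ∃ T : Matrix (Fin 2) (Fin (n + 1)) ℝ, (∀ i j, 0 ≤ T i j) ∧ ∑ i, ∑ j, T i j = 1 ∧
      (∃ i j j', T i j ≠ T i j') ∧
      (∑ j, rD (cx T) j) = ((-1/6 : ℝ) : ℂ) ∧ cB (cx T) = ((1/6 : ℝ) : ℂ) ∧
      cE (cx T) = ((35/36 : ℝ) : ℂ) := by
  obtain ⟨a0, ha0⟩ : ∃ a : Fin (n + 1), a.val = 0 := ⟨⟨0, by omega⟩, rfl⟩
  obtain ⟨a1, ha1⟩ : ∃ a : Fin (n + 1), a.val = 1 := ⟨⟨1, by omega⟩, rfl⟩
  obtain ⟨a2, ha2⟩ : ∃ a : Fin (n + 1), a.val = 2 := ⟨⟨2, by omega⟩, rfl⟩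
  have h01 : a0 ≠ a1 := by intro h; rw [h] at ha0; omega
  have h02 : a0 ≠ a2 := by intro h; rw [h] at ha0; omega
  have h12 : a1 ≠ a2 := by intro h; rw [h] at ha1; omega
  set P : Fin (n + 1) → ℝ := fun j => if j = a0 then 5/12 else 0 with hP
  set Q : Fin (n + 1) → ℝ := fun j => (if j = a1 then 1/4 else 0) + (if j = a2 then 1/3 else 0)
    with hQ
  have sP : ∑ j, P j = 5/12 := by rw [hP]; simp
  have sQ : ∑ j, Q j = 7/12 := by rw [hQ, Finset.sum_add_distrib]; simp; norm_num
  have sPP : ∑ j, P j ^ 2 = 25/144 := by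
    have : ∀ j, P j ^ 2 = if j = a0 then 25/144 else 0 := by
      intro j; simp only [hP]; split_ifs <;> norm_num
    rw [Finset.sum_congr rfl (fun j _ => this j)]; simp
  have sQQ : ∑ j, Q j ^ 2 = 25/144 := by
    have : ∀ j, Q j ^ 2 = (if j = a1 then 1/16 else 0) + (if j = a2 then 1/9 else 0) := by
      intro j; simp only [hQ]
      by_cases h1 : j = a1
      · subst h1; rw [if_pos rfl, if_neg h12, if_pos rfl, if_neg h12]; norm_num
      · rw [if_neg h1, if_neg h1]; split_ifs <;> norm_num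
    rw [Finset.sum_congr rfl (fun j _ => this j), Finset.sum_add_distrib]; simp; norm_num
  have hPQ : ∀ j, P j * Q j = 0 := by
    intro j; simp only [hP, hQ]
    by_cases h0 : j = a0
    · subst h0; rw [if_neg h01, if_neg h02]; norm_num
    · rw [if_neg h0]; norm_num
  set T : Matrix (Fin 2) (Fin (n + 1)) ℝ := Matrix.of ![P, Q] with hTd
  have hT0 : ∀ j, T 0 j = P j := fun j => rfl
  have hT1 : ∀ j, T 1 j = Q j := fun j => rfl
  have hrS : ∀ j, rS (cx T) j = ((P j + Q j : ℝ) : ℂ) := by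
    intro j
    simp only [rS, cx, Matrix.map_apply, hT0, hT1]
    push_cast; ring
  have hrD : ∀ j, rD (cx T) j = ((P j - Q j : ℝ) : ℂ) := by
    intro j
    simp only [rD, cx, Matrix.map_apply, hT0, hT1]
    push_cast; ring
  have e2 : ∑ j, rD (cx T) j = ((-1/6 : ℝ) : ℂ) := by
    rw [Finset.sum_congr rfl (fun j _ => hrD j), ← Complex.ofReal_sum, Finset.sum_sub_distrib,
      sP, sQ]
    norm_num
  refine ⟨T, ?_, ?_, ⟨0, a0, a1, ?_⟩, e2, ?_, ?_⟩
  · intro i j
    fin_cases i
    · show 0 ≤ P j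
      simp only [hP]; split_ifs <;> norm_num
    · show 0 ≤ Q j
      simp only [hQ]; split_ifs <;> norm_num
  · rw [Fin.sum_univ_two, Finset.sum_congr rfl (fun j _ => hT0 j),
      Finset.sum_congr rfl (fun j _ => hT1 j), sP, sQ]
    norm_num
  · rw [hT0, hT0]; simp only [hP, if_true, if_neg h01.symm]; norm_num
  · have e1 : ∑ j, rS (cx T) j * rD (cx T) j = 0 := by
      have : ∀ j, rS (cx T) j * rD (cx T) j = ((P j ^ 2 - Q j ^ 2 : ℝ) : ℂ) := by
        intro j; rw [hrS, hrD]; push_cast; ring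
      rw [Finset.sum_congr rfl (fun j _ => this j), ← Complex.ofReal_sum,
        Finset.sum_sub_distrib, sPP, sQQ]
      norm_num
    rw [cB, e1, e2]; push_cast; ring
  · have e1 : ∑ j, rD (cx T) j ^ 2 = ((50/144 : ℝ) : ℂ) := by
      have : ∀ j, rD (cx T) j ^ 2 = ((P j ^ 2 + Q j ^ 2 : ℝ) : ℂ) := by
        intro j; rw [hrD, ← Complex.ofReal_pow]
        congr 1
        linear_combination (-2) * hPQ j
      rw [Finset.sum_congr rfl (fun j _ => this j), ← Complex.ofReal_sum,
        Finset.sum_add_distrib, sPP, sQQ]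
      norm_num
    have e3 : ∑ j, rS (cx T) j ^ 2 = ((50/144 : ℝ) : ℂ) := by
      have : ∀ j, rS (cx T) j ^ 2 = ((P j ^ 2 + Q j ^ 2 : ℝ) : ℂ) := by
        intro j; rw [hrS, ← Complex.ofReal_pow]
        congr 1
        linear_combination 2 * hPQ j
      rw [Finset.sum_congr rfl (fun j _ => this j), ← Complex.ofReal_sum,
        Finset.sum_add_distrib, sPP, sQQ]
      norm_num
    rw [cE, e1, e2, e3]; push_cast; ring

lemma exists_rho : ∃ r : ℝ, r ^ 3 + 2 * r + 1/6 = 0 := by
  have hc : Continuous (fun r : ℝ => r ^ 3 + 2 * r + 1/6) := by fun_prop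
  have h := intermediate_value_Icc (show (-1 : ℝ) ≤ 0 by norm_num) hc.continuousOn
  have h0 : (0 : ℝ) ∈ Set.Icc ((fun r : ℝ => r ^ 3 + 2 * r + 1/6) (-1))
      ((fun r : ℝ => r ^ 3 + 2 * r + 1/6) 0) := by
    constructor <;> norm_num
  obtain ⟨r, _, hr⟩ := h h0
  exact ⟨r, hr⟩

lemma nonneg_three (hn : 2 ≤ n) :
    ∃ T : Matrix (Fin 2) (Fin (n + 1)) ℝ, (∀ i j, 0 ≤ T i j) ∧ ∑ i, ∑ j, T i j = 1 ∧
      (critSet (a := 1) (b := n) T).ncard = 5 ∧ (realCritSet (a := 1) (b := n) T).ncard = 3 := by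
  obtain ⟨T, hnn, hT, hne, e1, e2, e3⟩ := exists_nonneg hn
  obtain ⟨r, hr⟩ := exists_rho
  obtain ⟨s, hs0, hs⟩ : ∃ s : ℝ, 0 < s ∧ s ^ 2 = 3 * r ^ 2 + 8 :=
    ⟨Real.sqrt (3 * r ^ 2 + 8), Real.sqrt_pos.2 (by positivity), Real.sq_sqrt (by positivity)⟩
  have hr0 : r ≠ 0 := by rintro rfl; norm_num at hr
  have hr6 : r ≠ -1/6 := by rintro rfl; norm_num at hr
  set z : ℂ := ⟨-r/2, s/2⟩ with hz
  set w : ℂ := ⟨-r/2, -s/2⟩ with hw
  have hzw : z + w = ((-r : ℝ) : ℂ) := by
    apply Complex.ext <;> simp [hz, hw] <;> ring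
  have hzw2 : z * w = ((r ^ 2 + 2 : ℝ) : ℂ) := by
    apply Complex.ext
    · simp only [hz, hw, Complex.mul_re, Complex.ofReal_re]; nlinarith
    · simp only [hz, hw, Complex.mul_im, Complex.ofReal_im]; ring
  have hset : {al : ℂ | quint ((-1/6 : ℝ) : ℂ) ((1/6 : ℝ) : ℂ) ((35/36 : ℝ) : ℂ) al = 0} =
      {0, ((-1/6 : ℝ) : ℂ), (r : ℂ), z, w} := by
    ext al
    have hrc : (r : ℂ) ^ 3 + 2 * r + 1/6 = 0 := by
      have := congrArg Complex.ofReal hr
      push_cast at this
      exact this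
    have : quint ((-1/6 : ℝ) : ℂ) ((1/6 : ℝ) : ℂ) ((35/36 : ℝ) : ℂ) al =
        (al - 0) * ((al - ((-1/6 : ℝ) : ℂ)) * ((al - r) * ((al - z) * (al - w)))) := by
      have e4 : (al - z) * (al - w) = al ^ 2 + r * al + (r ^ 2 + 2) := by
        have h1 := hzw
        have h2 := hzw2
        push_cast at h1 h2
        linear_combination (-al) * h1 + h2
      rw [e4]
      simp only [quint]; push_cast
      linear_combination (al * (al + 1/6)) * hrc
    simp only [Set.mem_ofPred_eq, this, mul_eq_zero, sub_eq_zero, Set.mem_insert_iff,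
      Set.mem_singleton_iff]
  have hzim : z.im ≠ 0 := by simp only [hz]; positivity
  have hwim : w.im ≠ 0 := by
    simp only [hw]
    intro h; linarith
  have h5 : ({0, ((-1/6 : ℝ) : ℂ), (r : ℂ), z, w} : Set ℂ).ncard = 5 := by
    apply ncard5
    · intro h; have := congrArg Complex.re h; norm_num at this
    · intro h; have := congrArg Complex.re h; simp at this; exact hr0 this.symm
    · intro h; apply hzim; rw [← h]; simp
    · intro h; apply hwim; rw [← h]; simp
    · intro h; have := congrArg Complex.re h; simp at this; exact hr6 (by linarith)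
    · intro h; apply hzim; rw [← h]; exact Complex.ofReal_im _
    · intro h; apply hwim; rw [← h]; exact Complex.ofReal_im _
    · intro h; apply hzim; rw [← h]; simp
    · intro h; apply hwim; rw [← h]; simp
    · intro h
      have := congrArg Complex.im h
      simp only [hz, hw] at this
      linarith
  have hp := crit_param T hT hne (by
    intro al hal h
    rw [e1, e2, e3] at hal
    have hmem : al ∈ ({0, ((-1/6 : ℝ) : ℂ), (r : ℂ), z, w} : Set ℂ) := hset ▸ hal
    simp only [Set.mem_insert_iff, Set.mem_singleton_iff] at hmem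
    have hre := congrArg Complex.re h
    rcases hmem with rfl | rfl | rfl | rfl | rfl
    · simp at hre
    · norm_num [pow_two] at hre
    · simp [pow_two] at hre; nlinarith [mul_self_nonneg r]
    · have him := congrArg Complex.im h
      simp [pow_two, hz] at him
      have h3 : r * s = 0 := by linarith
      rcases mul_eq_zero.1 h3 with h1 | h1
      · exact hr0 h1
      · exact hs0.ne' h1
    · have him := congrArg Complex.im h
      simp [pow_two, hw] at him
      have h3 : r * s = 0 := by linarith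
      rcases mul_eq_zero.1 h3 with h1 | h1
      · exact hr0 h1
      · exact hs0.ne' h1)
  rw [e1, e2, e3] at hp
  refine ⟨T, hnn, hT, by rw [hp.1, hset, h5], ?_⟩
  rw [hp.2]
  have : {al : ℂ | quint ((-1/6 : ℝ) : ℂ) ((1/6 : ℝ) : ℂ) ((35/36 : ℝ) : ℂ) al = 0 ∧ al.im = 0} =
      {0, ((-1/6 : ℝ) : ℂ), (r : ℂ)} := by
    ext al
    have hm : quint ((-1/6 : ℝ) : ℂ) ((1/6 : ℝ) : ℂ) ((35/36 : ℝ) : ℂ) al = 0 ↔
        al ∈ ({0, ((-1/6 : ℝ) : ℂ), (r : ℂ), z, w} : Set ℂ) := by rw [← hset]; rfl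
    simp only [Set.mem_ofPred_eq, hm, Set.mem_insert_iff, Set.mem_singleton_iff]
    constructor
    · rintro ⟨h | h | h | h | h, h2⟩
      · exact Or.inl h
      · exact Or.inr (Or.inl h)
      · exact Or.inr (Or.inr h)
      · exact absurd (h ▸ h2) hzim
      · exact absurd (h ▸ h2) hwim
    · rintro (h | h | h)
      · exact ⟨Or.inl h, by rw [h]; simp⟩
      · exact ⟨Or.inr (Or.inl h), by rw [h]; exact Complex.ofReal_im _⟩
      · exact ⟨Or.inr (Or.inr (Or.inl h)), by rw [h]; exact Complex.ofReal_im _⟩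
  rw [this, Set.ncard_eq_three]
  refine ⟨0, ((-1/6 : ℝ) : ℂ), (r : ℂ), ?_, ?_, ?_, rfl⟩
  · intro h; have := congrArg Complex.re h; norm_num at this
  · intro h; have := congrArg Complex.re h; simp at this; exact hr0 this.symm
  · intro h; have := congrArg Complex.re h; simp at this; exact hr6 (by linarith)

end

/-- For the formats `(1, n)` with `n >= 1`: (1) a real `2 x (n+1)` matrix with sum of entries `1`
whose rows are not both constant has at most `5` complex critical points; (2) the numbers `k` such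
that some real matrix with sum of entries `1` has exactly `5` complex critical points, exactly `k`
of them real, are exactly `1`, `3` and `5`; (3) if `n >= 2`, some matrix with nonnegative entries
and sum of entries `1` has exactly `5` complex critical points, exactly `3` of them real. -/
theorem result (n : ℕ) (hn : 1 ≤ n) :
    (∀ T : Matrix (Fin 2) (Fin (n + 1)) ℝ, (∑ i, ∑ j, T i j = 1) → (∃ i j j', T i j ≠ T i j') →
      (critSet (a := 1) (b := n) T).Finite ∧ (critSet (a := 1) (b := n) T).ncard ≤ 5) ∧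
    {k : ℕ | ∃ T : Matrix (Fin 2) (Fin (n + 1)) ℝ, (∑ i, ∑ j, T i j = 1) ∧
      (critSet (a := 1) (b := n) T).ncard = 5 ∧
      (realCritSet (a := 1) (b := n) T).ncard = k} = {1, 3, 5} ∧
    (2 ≤ n → ∃ T : Matrix (Fin 2) (Fin (n + 1)) ℝ, (∀ i j, 0 ≤ T i j) ∧ (∑ i, ∑ j, T i j = 1) ∧
      (critSet (a := 1) (b := n) T).ncard = 5 ∧
      (realCritSet (a := 1) (b := n) T).ncard = 3) := by
  have hex : ∀ (d B E : ℝ) (R : Set ℂ), (B ≠ 0 ∨ E ≠ 0) →
      {al : ℂ | quint (d : ℂ) (B : ℂ) (E : ℂ) al = 0} = R → R.ncard = 5 →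
      (∀ al ∈ R, 1 + al ^ 2 ≠ 0) →
      ∃ T : Matrix (Fin 2) (Fin (n + 1)) ℝ, (∑ i, ∑ j, T i j = 1) ∧
        (critSet (a := 1) (b := n) T).ncard = 5 ∧
        (realCritSet (a := 1) (b := n) T).ncard = {al | al ∈ R ∧ al.im = 0}.ncard := by
    intro d B E R h0 hR h5 h1
    obtain ⟨T, hT, hne, e1, e2, e3⟩ := exists_data hn d B E h0
    have hp := crit_param T hT hne (by
      intro al hal
      rw [e1, e2, e3] at hal
      exact h1 al (hR ▸ hal))
    rw [e1, e2, e3] at hp
    refine ⟨T, hT, by rw [hp.1, hR, h5], ?_⟩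
    rw [hp.2]
    congr 1
    ext al
    rw [← hR]
    rfl
  refine ⟨fun T hT hne => crit_finite T hT hne, ?_, fun h2 => nonneg_three h2⟩
  ext k
  simp only [Set.mem_ofPred_eq, Set.mem_insert_iff, Set.mem_singleton_iff]
  constructor
  · rintro ⟨T, _, h5, hk⟩
    have hf : (critSet (a := 1) (b := n) T).Finite := Set.finite_of_ncard_ne_zero (by omega)
    obtain ⟨⟨r, hr⟩, hle⟩ := parity (a := 1) (b := n) T hf
    omega
  · rintro (rfl | rfl | rfl)
    · obtain ⟨T, h1, h2, h3⟩ := hex 0 0 (-225/64) _ (Or.inr (by norm_num)) roots1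
        (by apply ncard5 <;> intro h <;>
              first
              | (have h1 := congrArg Complex.re h; norm_num at h1; done)
              | (have h2 := congrArg Complex.im h; norm_num at h2; done))
        (by
          intro al hal h
          simp only [Set.mem_insert_iff, Set.mem_singleton_iff] at hal
          rcases hal with rfl | rfl | rfl | rfl | rfl <;>
            first
            | (have h1 := congrArg Complex.re h; norm_num [pow_two] at h1; done)
            | (have h2 := congrArg Complex.im h; norm_num [pow_two] at h2; done))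
      refine ⟨T, h1, h2, ?_⟩
      rw [h3]
      have : {al : ℂ | al ∈ ({0, 3/4 + 5/4 * Complex.I, 3/4 - 5/4 * Complex.I,
          -3/4 + 5/4 * Complex.I, -3/4 - 5/4 * Complex.I} : Set ℂ) ∧ al.im = 0} = {0} := by
        ext al
        simp only [Set.mem_ofPred_eq, Set.mem_insert_iff, Set.mem_singleton_iff]
        constructor
        · rintro ⟨rfl | rfl | rfl | rfl | rfl, h⟩ <;>
            first
            | (norm_num at h; done)
            | (norm_num; done)
        · rintro rfl; simp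
      rw [this, Set.ncard_singleton]
    · obtain ⟨T, h1, h2, h3⟩ := hex 0 0 (25/16) _ (Or.inr (by norm_num)) roots3
        (by apply ncard5 <;> intro h <;>
              first
              | (have h1 := congrArg Complex.re h; norm_num at h1; done)
              | (have h2 := congrArg Complex.im h; norm_num at h2; done))
        (by
          intro al hal h
          simp only [Set.mem_insert_iff, Set.mem_singleton_iff] at hal
          rcases hal with rfl | rfl | rfl | rfl | rfl <;>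
            first
            | (have h1 := congrArg Complex.re h; norm_num [pow_two] at h1; done)
            | (have h2 := congrArg Complex.im h; norm_num [pow_two] at h2; done))
      refine ⟨T, h1, h2, ?_⟩
      rw [h3]
      have : {al : ℂ | al ∈ ({0, 1/2, -1/2, 3/2 * Complex.I, -(3/2 * Complex.I)} : Set ℂ) ∧
          al.im = 0} = {0, 1/2, -1/2} := by
        ext al
        simp only [Set.mem_ofPred_eq, Set.mem_insert_iff, Set.mem_singleton_iff]
        constructor
        · rintro ⟨rfl | rfl | rfl | rfl | rfl, h⟩ <;>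
            first
            | (norm_num at h; done)
            | (norm_num; done)
        · rintro (rfl | rfl | rfl) <;> norm_num
      rw [this]
      rw [Set.ncard_eq_three]
      exact ⟨0, 1/2, -1/2, by norm_num, by norm_num, by norm_num, rfl⟩
    · obtain ⟨T, h1, h2, h3⟩ := hex (129/14) (1167/14) (106/7) _ (Or.inr (by norm_num)) roots5
        (by apply ncard5 <;> norm_num)
        (by
          intro al hal h
          simp only [Set.mem_insert_iff, Set.mem_singleton_iff] at hal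
          rcases hal with rfl | rfl | rfl | rfl | rfl <;> norm_num at h)
      refine ⟨T, h1, h2, ?_⟩
      rw [h3]
      have : {al : ℂ | al ∈ ({-2, -9/7, 3/2, 3, 8} : Set ℂ) ∧ al.im = 0} =
          {-2, -9/7, 3/2, 3, 8} := by
        ext al
        simp only [Set.mem_ofPred_eq, Set.mem_insert_iff, Set.mem_singleton_iff]
        constructor
        · exact fun h => h.1
        · intro h
          refine ⟨h, ?_⟩
          rcases h with rfl | rfl | rfl | rfl | rfl <;> norm_num
      rw [this]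
      apply ncard5 <;> norm_num

end Pool.Agent.Results.MP_b0e20b_ag.TwoByN
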